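import Mathlib
import Pool.Agent.H451R6.Prod
import Pool.Agent.TH377.IG.Rel
import Pool.Agent.H391R2.T4.Gp

/-!
# Fixed fields of kernels of homomorphisms to products of finite groups
-/

set_option autoImplicit false

namespace Pool.Agent.X285.PA

open IntermediateField AlgEquiv

section

variable {k Ω : Type} [Field k] [Field Ω] [Algebra k Ω] [IsGalois k Ω]

/-- The fixed field of the kernel of an epimorphism to a product. -/
theorem prod_field {ι : Type} {A : ι → Type} [∀ i, Group (A i)]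
    (ρ : ∀ i, Gal(Ω/k) →* A i) (hρ : ∀ y : ∀ i, A i, ∃ σ, ∀ i, ρ i σ = y i)
    (ho : ∀ i, IsOpen ((ρ i).ker : Set Gal(Ω/k))) :
    ∃ (F : IntermediateField k Ω) (_ : IsGalois k F) (e : Gal(F/k) ≃* ∀ i, A i),
      (∀ σ i, e (restrictNormalHom F σ) i = ρ i σ) ∧
      (∀ σ, σ ∈ F.fixingSubgroup ↔ ∀ i, ρ i σ = 1) ∧
      ∀ i, IsOpen {σ : Gal(F/k) | e σ i = 1} := by
  classical
  let P : Gal(Ω/k) →* ∀ i, A i := MonoidHom.pi ρ
  have hP : Function.Surjective P := by
    intro y
    obtain ⟨σ, hσ⟩ := hρ y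
    exact ⟨σ, funext hσ⟩
  have hmem : ∀ σ, σ ∈ P.ker ↔ ∀ i, ρ i σ = 1 := by
    intro σ
    rw [MonoidHom.mem_ker]
    exact ⟨fun h i => congrFun h i, fun h => funext h⟩
  have hcl : IsClosed (P.ker : Set Gal(Ω/k)) := by
    have h1 : (P.ker : Set Gal(Ω/k)) = ⋂ i, ((ρ i).ker : Set Gal(Ω/k)) := by
      ext σ
      simp only [SetLike.mem_coe, hmem, Set.mem_iInter, MonoidHom.mem_ker]
    rw [h1]
    exact isClosed_iInter fun i => Subgroup.isClosed_of_isOpen _ (ho i)
  let H : ClosedSubgroup Gal(Ω/k) := ⟨P.ker, hcl⟩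
  let F : IntermediateField k Ω := fixedField H.1
  have hfix : F.fixingSubgroup = P.ker := InfiniteGalois.fixingSubgroup_fixedField H
  have hgal : IsGalois k F := by
    rw [← InfiniteGalois.normal_iff_isGalois, hfix]
    exact MonoidHom.normal_ker P
  have hker : (restrictNormalHom (F := k) (K₁ := Ω) F).ker = P.ker := by
    rw [restrictNormalHom_ker, hfix]
  obtain ⟨e, he⟩ := Pool.Agent.H391R2.T4.exists_equiv_of_ker
    (restrictNormalHom (F := k) (K₁ := Ω) F) P
    (restrictNormalHom_surjective Ω) hP hker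
  refine ⟨F, hgal, e, fun σ i => ?_, fun σ => ?_, fun i => ?_⟩
  · rw [he]
    rfl
  · rw [hfix, hmem]
  · have hcont := InfiniteGalois.restrictNormalHom_continuous (k := k) (K := Ω) F
    have hquot := (hcont.isClosedMap).isQuotientMap hcont (restrictNormalHom_surjective Ω)
    rw [← hquot.isOpen_preimage]
    have h1 : (restrictNormalHom (F := k) (K₁ := Ω) F) ⁻¹' {σ : F ≃ₐ[k] F | e σ i = 1} =
        ((ρ i).ker : Set Gal(Ω/k)) := by
      ext σ
      rw [Set.mem_preimage, Set.mem_ofPred_eq, he, SetLike.mem_coe, MonoidHom.mem_ker]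
      rfl
    rw [h1]
    exact ho i

/-- A field which is disjoint from a given one. -/
theorem inf_bot (F M : IntermediateField k Ω) (hM : Pool.Agent.H451R6.FG M)
    (h : ∀ σ : Gal(Ω/k), ∃ τ ∈ M.fixingSubgroup, τ⁻¹ * σ ∈ F.fixingSubgroup) : F ⊓ M = ⊥ := by
  have h1 : (F ⊓ M).fixingSubgroup = ⊤ := by
    rw [eq_top_iff, ← Pool.Agent.TH377.IG.sup_fix F M hM, sup_comm]
    intro σ _
    obtain ⟨τ, hτ, h2⟩ := h σ
    have h3 : σ = τ * (τ⁻¹ * σ) := by group
    rw [h3]
    exact Subgroup.mul_mem_sup hτ h2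
  rw [← InfiniteGalois.fixedField_fixingSubgroup (F ⊓ M), h1, InfiniteGalois.fixedField_bot]

/-- Restriction of an open subgroup to the automorphisms over an intermediate field. -/
theorem open_res (F : IntermediateField k Ω) {A : Type} [Group A] (q : Gal(Ω/k) →* A)
    (ho : IsOpen (q.ker : Set Gal(Ω/k))) (hn : q.ker.Normal) :
    IsOpen ((q.comp (restrictScalarsHom k : Gal(Ω/F) →* Gal(Ω/k))).ker : Set Gal(Ω/F)) := by
  have hcl : IsClosed (q.ker : Set Gal(Ω/k)) := Subgroup.isClosed_of_isOpen _ ho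
  let H : ClosedSubgroup Gal(Ω/k) := ⟨q.ker, hcl⟩
  let E : IntermediateField k Ω := fixedField H.1
  have hfix : E.fixingSubgroup = q.ker := InfiniteGalois.fixingSubgroup_fixedField H
  have hE : Pool.Agent.H451R6.FG E := Pool.Agent.TH377.IG.fg_of_open E (by rw [hfix]; exact ho)
    (by rw [hfix]; exact hn)
  have hfd : FiniteDimensional k E := hE.1
  have hgal : IsGalois k E := hE.2
  obtain ⟨θ, hθ⟩ := Field.exists_primitive_element k E
  have hθ' : k⟮(θ : Ω)⟯ = E := by
    have h1 := congrArg (IntermediateField.map E.val) hθ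
    rw [adjoin_map, Set.image_singleton] at h1
    rw [← AlgHom.fieldRange_eq_map, IntermediateField.fieldRange_val] at h1
    exact h1
  have hint : IsIntegral F (θ : Ω) := by
    have h1 : IsIntegral k (θ : Ω) := (Algebra.IsIntegral.isIntegral (R := k) θ).map E.val
    exact h1.tower_top
  have hfd2 : FiniteDimensional F F⟮(θ : Ω)⟯ := IntermediateField.adjoin.finiteDimensional hint
  have hopen : IsOpen (F⟮(θ : Ω)⟯.fixingSubgroup : Set Gal(Ω/F)) :=
    IntermediateField.fixingSubgroup_isOpen _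
  refine Subgroup.isOpen_mono (fun σ hσ => ?_) hopen
  rw [MonoidHom.mem_ker, MonoidHom.comp_apply, ← MonoidHom.mem_ker, ← hfix,
    IntermediateField.mem_fixingSubgroup_iff]
  have h1 : σ (θ : Ω) = θ := (IntermediateField.mem_fixingSubgroup_iff _ _).1 hσ _
    (mem_adjoin_simple_self F (θ : Ω))
  intro x hx
  rw [← hθ'] at hx
  have h2 : k⟮(θ : Ω)⟯ ≤ fixedField (Subgroup.zpowers (restrictScalarsHom k σ : Gal(Ω/k))) := by
    rw [adjoin_simple_le_iff, IntermediateField.mem_fixedField_iff]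
    intro g hg
    have h3 : Subgroup.zpowers (restrictScalarsHom k σ : Gal(Ω/k)) ≤
        MulAction.stabilizer Gal(Ω/k) (θ : Ω) := by
      rw [Subgroup.zpowers_le, MulAction.mem_stabilizer_iff]
      exact h1
    exact h3 hg
  exact (IntermediateField.mem_fixedField_iff _ _).1 (h2 hx) _ (Subgroup.mem_zpowers _)

end

end Pool.Agent.X285.PA
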