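import Mathlib

set_option autoImplicit false

namespace Pool.Agent.X285.PA

/-- An algebraic Galois extension on which a finite set of automorphisms has fixed field the base
is finite. -/
theorem fd_of_fixed {K L R : Type} [Field K] [Field L] [Algebra K L] [IsGalois K L] [Group R]
    [Finite R] (ρ : R →* (L ≃ₐ[K] L))
    (h : ∀ y : L, (∀ g, ρ g y = y) → y ∈ (⊥ : IntermediateField K L)) :
    FiniteDimensional K L := by
  have hfin : (ρ.range : Set (L ≃ₐ[K] L)).Finite := by
    rw [MonoidHom.coe_range]
    exact Set.finite_range ρ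
  let H : ClosedSubgroup (L ≃ₐ[K] L) := ⟨ρ.range, hfin.isClosed⟩
  have h1 : IntermediateField.fixedField H.1 = ⊥ := by
    rw [eq_bot_iff]
    intro y hy
    rw [IntermediateField.mem_fixedField_iff] at hy
    exact h y fun g => hy (ρ g) ⟨g, rfl⟩
  have h2 : H.1 = ⊤ := by
    rw [← InfiniteGalois.fixingSubgroup_fixedField H]
    have h3 : IntermediateField.fixedField (H : Subgroup (L ≃ₐ[K] L)) = ⊥ := h1
    rw [h3, IntermediateField.fixingSubgroup_bot]
  have h3 : Finite (L ≃ₐ[K] L) := by
    rw [← Set.finite_univ_iff]
    refine hfin.subset fun x _ => ?_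
    have h4 : x ∈ H.1 := by
      rw [h2]
      exact Subgroup.mem_top x
    exact h4
  have h4 : DiscreteTopology (L ≃ₐ[K] L) := inferInstance
  have h5 : FiniteDimensional K (⊤ : IntermediateField K L) :=
    (InfiniteGalois.isOpen_iff_finite (⊤ : IntermediateField K L)).1 (isOpen_discrete _)
  exact (IntermediateField.topEquiv (F := K) (E := L)).toLinearEquiv.finiteDimensional

end Pool.Agent.X285.PA
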