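import Mathlib

/-!
# Subgroups of `G ^ n` which are onto pairs and stable under twisted even permutations
-/

set_option autoImplicit false

namespace Pool.Agent.X285.PA

open Equiv

open scoped commutatorElement

variable {n : ℕ}

/-- A subgroup of `G ^ n` which is onto all pairs of coordinates and stable under even permutations,
twisted by inner automorphisms of the coordinates. -/
structure Good {G : Type} [Group G] (B : Subgroup (Fin n → G)) : Prop where
  pr : ∀ a b, a ≠ b → ∀ g h : G, ∃ f ∈ B, f a = g ∧ f b = h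
  tw : ∀ σ : Perm (Fin n), Perm.sign σ = 1 → ∃ c : Fin n → G, ∀ f ∈ B,
    (fun j => c j * f (σ⁻¹ j) * (c j)⁻¹) ∈ B

/-- The map of `G ^ n` given by a homomorphism. -/
def pim {G G' : Type} [Group G] [Group G'] (φ : G →* G') (n : ℕ) : (Fin n → G) →* (Fin n → G') :=
  φ.compLeft (Fin n)

theorem pim_apply {G G' : Type} [Group G] [Group G'] (φ : G →* G') (f : Fin n → G) (i : Fin n) :
    pim φ n f i = φ (f i) := rfl

theorem pim_single {G G' : Type} [Group G] [Group G'] (φ : G →* G') (a : Fin n) (g : G) :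
    pim φ n (Pi.mulSingle a g) = Pi.mulSingle a (φ g) := by
  funext i
  rw [pim_apply]
  by_cases h : i = a
  · subst h; simp
  · simp [h]

theorem Good.map {G G' : Type} [Group G] [Group G'] {B : Subgroup (Fin n → G)} (hB : Good B)
    (φ : G →* G') (hφ : Function.Surjective φ) : Good (B.map (pim φ n)) where
  pr a b hab g h := by
    obtain ⟨g, rfl⟩ := hφ g
    obtain ⟨h, rfl⟩ := hφ h
    obtain ⟨f, hf, h1, h2⟩ := hB.pr a b hab g h
    exact ⟨pim φ n f, ⟨f, hf, rfl⟩, by rw [pim_apply, h1], by rw [pim_apply, h2]⟩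
  tw σ hσ := by
    obtain ⟨c, hc⟩ := hB.tw σ hσ
    refine ⟨fun j => φ (c j), ?_⟩
    rintro _ ⟨f, hf, rfl⟩
    refine ⟨_, hc f hf, ?_⟩
    funext j
    simp [pim_apply]

theorem exists_notMem (s : Finset (Fin n)) (h : s.card < n) : ∃ x, x ∉ s := by
  by_contra hcon
  push Not at hcon
  have h1 : s = Finset.univ := Finset.eq_univ_iff_forall.2 hcon
  rw [h1, Finset.card_univ, Fintype.card_fin] at h
  exact lt_irrefl _ h

/-- The three-cycle `a → b → c → a`. -/
def cyc (a b c : Fin n) : Perm (Fin n) := swap a b * swap b c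

theorem cyc_sign {a b c : Fin n} (h1 : a ≠ b) (h2 : b ≠ c) : Perm.sign (cyc a b c) = 1 := by
  rw [cyc, Perm.sign_mul, Perm.sign_swap h1, Perm.sign_swap h2]
  rfl

theorem cyc_inv_a {a b c : Fin n} (_ : a ≠ c) : (cyc a b c)⁻¹ a = c := by
  rw [cyc, mul_inv_rev, Perm.mul_apply, swap_inv, swap_inv, swap_apply_left, swap_apply_left]

theorem cyc_inv_b {a b c : Fin n} (h1 : a ≠ b) (h3 : a ≠ c) : (cyc a b c)⁻¹ b = a := by
  rw [cyc, mul_inv_rev, Perm.mul_apply, swap_inv, swap_inv, swap_apply_right,
    swap_apply_of_ne_of_ne h1 h3]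

theorem cyc_inv_c {a b c : Fin n} (h2 : b ≠ c) (h3 : a ≠ c) : (cyc a b c)⁻¹ c = b := by
  rw [cyc, mul_inv_rev, Perm.mul_apply, swap_inv, swap_inv,
    swap_apply_of_ne_of_ne h3.symm h2.symm, swap_apply_right]

theorem cyc_inv_other {a b c j : Fin n} (h1 : j ≠ a) (h2 : j ≠ b) (h3 : j ≠ c) :
    (cyc a b c)⁻¹ j = j := by
  rw [cyc, mul_inv_rev, Perm.mul_apply, swap_inv, swap_inv,
    swap_apply_of_ne_of_ne h1 h2, swap_apply_of_ne_of_ne h2 h3]

theorem ab_pair {A : Type} [CommGroup A] {B : Subgroup (Fin n → A)} (hB : Good B) (hn : 5 ≤ n)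
    (a d : Fin n) (had : a ≠ d) (g : A) :
    (Pi.mulSingle a g * Pi.mulSingle d g⁻¹ : Fin n → A) ∈ B := by
  classical
  obtain ⟨b, hb⟩ := exists_notMem ({a, d} : Finset (Fin n))
    (lt_of_le_of_lt Finset.card_le_two (by omega))
  obtain ⟨c, hc⟩ := exists_notMem ({a, d, b} : Finset (Fin n))
    (lt_of_le_of_lt Finset.card_le_three (by omega))
  obtain ⟨e, he⟩ := exists_notMem ({a, d, b, c} : Finset (Fin n))
    (lt_of_le_of_lt Finset.card_le_four (by omega))
  simp only [Finset.mem_insert, Finset.mem_singleton, not_or, ← ne_eq] at hb hc he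
  obtain ⟨hba, hbd⟩ := hb
  obtain ⟨hca, hcd, hcb⟩ := hc
  obtain ⟨hea, hed, heb, hec⟩ := he
  obtain ⟨f, hf, hfa, hfc⟩ := hB.pr a c hca.symm g 1
  have key : ∀ σ : Perm (Fin n), Perm.sign σ = 1 → ∀ f ∈ B, (fun j => f (σ⁻¹ j)) ∈ B := by
    intro σ hσ f hf
    obtain ⟨c, hc⟩ := hB.tw σ hσ
    have h1 := hc f hf
    have h2 : (fun j => c j * f (σ⁻¹ j) * (c j)⁻¹) = fun j => f (σ⁻¹ j) := by
      funext j
      rw [mul_comm (c j), mul_inv_cancel_right]
    rwa [h2] at h1
  obtain ⟨h, hh⟩ : ∃ h : Fin n → A, h = f * (fun j => f ((cyc a b c)⁻¹ j))⁻¹ := ⟨_, rfl⟩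
  have hhB : h ∈ B := by
    rw [hh]
    exact B.mul_mem hf (B.inv_mem (key _ (cyc_sign hba.symm hcb.symm) f hf))
  have hha : h a = g := by
    rw [hh, Pi.mul_apply, Pi.inv_apply, cyc_inv_a hca.symm, hfa, hfc, inv_one, mul_one]
  have hho : ∀ j, j ≠ a → j ≠ b → j ≠ c → h j = 1 := by
    intro j h1 h2 h3
    rw [hh, Pi.mul_apply, Pi.inv_apply, cyc_inv_other h1 h2 h3, mul_inv_cancel]
  have hmem : h * (fun j => h ((cyc a d e)⁻¹ j))⁻¹ ∈ B :=
    B.mul_mem hhB (B.inv_mem (key _ (cyc_sign had hed.symm) h hhB))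
  have heq : h * (fun j => h ((cyc a d e)⁻¹ j))⁻¹ =
      (Pi.mulSingle a g * Pi.mulSingle d g⁻¹ : Fin n → A) := by
    funext j
    rw [Pi.mul_apply, Pi.inv_apply, Pi.mul_apply]
    by_cases h1 : j = a
    · subst h1
      rw [cyc_inv_a hea.symm, hha, hho e hea heb hec, Pi.mulSingle_eq_same,
        Pi.mulSingle_eq_of_ne had, inv_one]
    · by_cases h2 : j = d
      · subst h2
        rw [cyc_inv_b had hea.symm, hha, hho j h1 hbd.symm hcd.symm, Pi.mulSingle_eq_same,
          Pi.mulSingle_eq_of_ne h1]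
      · by_cases h3 : j = e
        · subst h3
          rw [cyc_inv_c hed.symm hea.symm, hho j hea heb hec, hho d had.symm hbd.symm hcd.symm,
            Pi.mulSingle_eq_of_ne h1, Pi.mulSingle_eq_of_ne h2, inv_one]
        · rw [cyc_inv_other h1 h2 h3, Pi.mulSingle_eq_of_ne h1, Pi.mulSingle_eq_of_ne h2,
            mul_inv_cancel, mul_one]
  rwa [heq] at hmem

theorem ab_gen {A : Type} [CommGroup A] (C : Subgroup (Fin n → A))
    (h : ∀ a d : Fin n, a ≠ d → ∀ g : A, (Pi.mulSingle a g * Pi.mulSingle d g⁻¹ : Fin n → A) ∈ C)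
    (f : Fin n → A) (hf : ∏ i, f i = 1) : f ∈ C := by
  classical
  rcases Nat.eq_zero_or_pos n with h0 | h0
  · subst h0
    have : f = 1 := Subsingleton.elim _ _
    rw [this]
    exact C.one_mem
  · let a0 : Fin n := ⟨0, h0⟩
    have h1 : f = ∏ i, (Pi.mulSingle i (f i) * Pi.mulSingle a0 (f i)⁻¹ : Fin n → A) := by
      rw [Finset.prod_mul_distrib, Finset.univ_prod_mulSingle f]
      have h2 : ∏ i, (Pi.mulSingle a0 (f i)⁻¹ : Fin n → A) = 1 := by
        have h3 := map_prod (MonoidHom.mulSingle (fun _ : Fin n => A) a0) (fun i => (f i)⁻¹)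
          Finset.univ
        rw [Finset.prod_inv_distrib, hf, inv_one, map_one] at h3
        exact h3.symm
      rw [h2, mul_one]
    rw [h1]
    refine Subgroup.prod_mem _ fun i _ => ?_
    by_cases hi : i = a0
    · rw [hi]
      have : (Pi.mulSingle a0 (f a0) * Pi.mulSingle a0 (f a0)⁻¹ : Fin n → A) = 1 := by
        rw [Pi.mulSingle_inv, mul_inv_cancel]
      rw [this]
      exact C.one_mem
    · exact h i a0 hi _

theorem of_eq_one {G : Type} [Group G] {x : G} : Abelianization.of x = 1 ↔ x ∈ commutator G := by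
  rw [← MonoidHom.mem_ker, Abelianization.ker_of]

theorem all_gen {G : Type} [Group G] (B : Subgroup (Fin n → G))
    (h1 : ∀ a, ∀ c ∈ commutator G, (Pi.mulSingle a c : Fin n → G) ∈ B)
    (h2 : ∀ a d : Fin n, a ≠ d → ∀ g : Abelianization G,
      (Pi.mulSingle a g * Pi.mulSingle d g⁻¹ : Fin n → Abelianization G) ∈
        B.map (pim Abelianization.of n))
    (f : Fin n → G) (hf : ∏ i, Abelianization.of (f i) = 1) : f ∈ B := by
  classical
  have h3 := ab_gen _ h2 (fun i => Abelianization.of (f i)) hf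
  obtain ⟨b, hb, hbf⟩ := h3
  have h4 : f * b⁻¹ ∈ B := by
    refine Subgroup.pi_mem_of_mulSingle_mem _ fun i => h1 i _ ?_
    rw [← of_eq_one, Pi.mul_apply, Pi.inv_apply, map_mul, map_inv]
    have h5 := congrFun hbf i
    rw [pim_apply] at h5
    rw [h5, mul_inv_cancel]
  have h5 := B.mul_mem h4 hb
  rwa [inv_mul_cancel_right] at h5

theorem mk_comm {G : Type} [Group G] (N : Subgroup G) [N.Normal] {c : G} (hc : c ∈ commutator G) :
    (QuotientGroup.mk' N c) ∈ commutator (G ⧸ N) := by
  have h1 : (commutator G).map (QuotientGroup.mk' N) = commutator (G ⧸ N) := by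
    rw [commutator_def, commutator_def, Subgroup.map_commutator,
      Subgroup.map_top_of_surjective _ (QuotientGroup.mk'_surjective N)]
  rw [← h1]
  exact ⟨c, hc, rfl⟩

theorem card_lt {G : Type} [Group G] [Finite G] (N : Subgroup G) [N.Normal] (h : N ≠ ⊥) :
    Nat.card (G ⧸ N) < Nat.card G := by
  have h1 := N.card_eq_card_quotient_mul_card_subgroup
  have h2 : 1 < Nat.card N := by
    rw [Subgroup.one_lt_card_iff_ne_bot]
    exact h
  have h3 : 0 < Nat.card (G ⧸ N) := Nat.card_pos
  rw [h1]
  nlinarith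

theorem main (hn : 5 ≤ n) : ∀ (m : ℕ) (G : Type) [Group G] [Finite G], Nat.card G = m →
    ∀ B : Subgroup (Fin n → G), Good B → ∀ f : Fin n → G, ∏ i, Abelianization.of (f i) = 1 →
      f ∈ B := by
  classical
  intro m
  induction m using Nat.strong_induction_on with
  | _ m ih =>
  intro G _ _ hm B hB
  refine all_gen B ?_ (ab_pair (hB.map Abelianization.of (QuotientGroup.mk'_surjective _)) hn)
  -- the subgroup of the elements which can occur alone
  let N : Subgroup G :=
    { carrier := {g | ∀ a, (Pi.mulSingle a g : Fin n → G) ∈ B}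
      one_mem' := fun a => by
        rw [Pi.mulSingle_one]
        exact B.one_mem
      mul_mem' := fun {x y} hx hy a => by
        rw [Pi.mulSingle_mul]
        exact B.mul_mem (hx a) (hy a)
      inv_mem' := fun {x} hx a => by
        rw [Pi.mulSingle_inv]
        exact B.inv_mem (hx a) }
  have hN : ∀ g, g ∈ N ↔ ∀ a, (Pi.mulSingle a g : Fin n → G) ∈ B := fun g => Iff.rfl
  have hne : ∀ a : Fin n, ∃ b, b ≠ a := by
    intro a
    obtain ⟨b, hb⟩ := exists_notMem ({a} : Finset (Fin n)) (by
      rw [Finset.card_singleton]; omega)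
    exact ⟨b, by simpa using hb⟩
  have hconj : ∀ (a : Fin n) (g v : G), (Pi.mulSingle a g : Fin n → G) ∈ B →
      (Pi.mulSingle a (v * g * v⁻¹) : Fin n → G) ∈ B := by
    intro a g v hg
    obtain ⟨b, hb⟩ := hne a
    obtain ⟨f, hf, hfa, -⟩ := hB.pr a b hb.symm v 1
    have h1 := B.mul_mem (B.mul_mem hf hg) (B.inv_mem hf)
    have h2 : f * Pi.mulSingle a g * f⁻¹ = (Pi.mulSingle a (v * g * v⁻¹) : Fin n → G) := by
      funext j
      by_cases hj : j = a
      · subst hj
        simp [hfa]
      · simp [hj]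
    rwa [h2] at h1
  have hone : ∀ (a : Fin n) (g : G), (Pi.mulSingle a g : Fin n → G) ∈ B → g ∈ N := by
    intro a g hg b
    by_cases hab : b = a
    · rw [hab]; exact hg
    obtain ⟨c, hc⟩ := exists_notMem ({a, b} : Finset (Fin n))
      (lt_of_le_of_lt Finset.card_le_two (by omega))
    simp only [Finset.mem_insert, Finset.mem_singleton, not_or, ← ne_eq] at hc
    obtain ⟨t, ht⟩ := hB.tw (cyc a b c) (cyc_sign (Ne.symm hab) hc.2.symm)
    have h1 := ht _ hg
    have h2 : (fun j => t j * (Pi.mulSingle a g : Fin n → G) ((cyc a b c)⁻¹ j) * (t j)⁻¹) =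
        (Pi.mulSingle b (t b * g * (t b)⁻¹) : Fin n → G) := by
      funext j
      by_cases h3 : j = b
      · subst h3
        rw [cyc_inv_b (Ne.symm hab) hc.1.symm, Pi.mulSingle_eq_same, Pi.mulSingle_eq_same]
      · rw [Pi.mulSingle_eq_of_ne h3]
        have h4 : (cyc a b c)⁻¹ j ≠ a := by
          intro h5
          apply h3
          have h6 : (cyc a b c)⁻¹ b = a := cyc_inv_b (Ne.symm hab) hc.1.symm
          exact ((cyc a b c)⁻¹).injective (h5.trans h6.symm)
        rw [Pi.mulSingle_eq_of_ne h4, mul_one, mul_inv_cancel]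
    rw [h2] at h1
    have h3 := hconj b _ (t b)⁻¹ h1
    have h4 : (t b)⁻¹ * (t b * g * (t b)⁻¹) * (t b)⁻¹⁻¹ = g := by group
    rwa [h4] at h3
  have hNn : N.Normal := ⟨fun g hg v a => hconj a g v (hg a)⟩
  have hpi : ∀ f : Fin n → G, (∀ i, f i ∈ N) → f ∈ B := fun f hf =>
    Subgroup.pi_mem_of_mulSingle_mem f fun i => hf i i
  suffices hmain : commutator G ≤ N from fun a c hc => hmain hc a
  by_cases hNb : N = ⊥
  · -- show that `G` is commutative
    by_contra hcon
    have hnt : ∃ Z : Subgroup G, Z.Normal ∧ Z ≠ ⊥ := by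
      refine ⟨⊤, inferInstance, fun h => hcon ?_⟩
      intro x _
      have h1 : x ∈ (⊤ : Subgroup G) := trivial
      rw [h, Subgroup.mem_bot] at h1
      rw [h1]
      exact N.one_mem
    obtain ⟨Z, ⟨hZn, hZb⟩, hZmin⟩ := exists_minimal_of_wellFoundedLT
      (fun Z : Subgroup G => Z.Normal ∧ Z ≠ ⊥) hnt
    have hq := card_lt Z hZb
    rw [hm] at hq
    have hsurj := QuotientGroup.mk'_surjective Z
    have IH := ih _ hq (G ⧸ Z) rfl _ (hB.map (QuotientGroup.mk' Z) hsurj)
    have hZmk : ∀ x : G, QuotientGroup.mk' Z x = 1 ↔ x ∈ Z := fun x => by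
      rw [← MonoidHom.mem_ker, QuotientGroup.ker_mk']
    have hNe : ∀ (a : Fin n) (g : G), (Pi.mulSingle a g : Fin n → G) ∈ B → g = 1 := by
      intro a g hg
      have h1 := hone a g hg
      rwa [hNb, Subgroup.mem_bot] at h1
    -- commutativity is enough
    have hcomm : (∀ x y : G, ⁅x, y⁆ = 1) → False := by
      intro h
      apply hcon
      rw [commutator_def, Subgroup.commutator_le]
      intro x _ y _
      rw [h]
      exact N.one_mem
    by_cases hcen : Z ≤ Subgroup.center G
    · apply hcomm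
      intro x y
      have a : Fin n := ⟨0, by omega⟩
      obtain ⟨b, hb⟩ := exists_notMem ({a} : Finset (Fin n)) (by
        rw [Finset.card_singleton]; omega)
      obtain ⟨c, hc⟩ := exists_notMem ({a, b} : Finset (Fin n))
        (lt_of_le_of_lt Finset.card_le_two (by omega))
      simp only [Finset.mem_insert, Finset.mem_singleton, not_or, ← ne_eq] at hb hc
      have hprod : ∀ (b : Fin n) (_ : b ≠ a) (x : G), ∃ f ∈ B,
          QuotientGroup.mk' Z (f a) = QuotientGroup.mk' Z x ∧
          ∀ j, j ≠ a → j ≠ b → f j ∈ Z := by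
        intro b hb x
        obtain ⟨f, hf, hf2⟩ := IH (Pi.mulSingle a (QuotientGroup.mk' Z x) *
          Pi.mulSingle b (QuotientGroup.mk' Z x)⁻¹) (by
            simp only [Pi.mul_apply, map_mul, Finset.prod_mul_distrib]
            have h1 : ∀ (a : Fin n) (u : G ⧸ Z), ∏ i, Abelianization.of
                ((Pi.mulSingle a u : Fin n → G ⧸ Z) i) = Abelianization.of u := by
              intro a u
              rw [Finset.prod_eq_single a]
              · rw [Pi.mulSingle_eq_same]
              · intro j _ hj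
                rw [Pi.mulSingle_eq_of_ne hj, map_one]
              · intro h; exact absurd (Finset.mem_univ a) h
            rw [h1, h1, map_inv, mul_inv_cancel])
        refine ⟨f, hf, ?_, ?_⟩
        · have h1 := congrFun hf2 a
          rw [pim_apply, Pi.mul_apply, Pi.mulSingle_eq_same, Pi.mulSingle_eq_of_ne hb.symm,
            mul_one] at h1
          exact h1
        · intro j h1 h2
          have h3 := congrFun hf2 j
          rw [pim_apply, Pi.mul_apply, Pi.mulSingle_eq_of_ne h1, Pi.mulSingle_eq_of_ne h2,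
            mul_one] at h3
          exact (hZmk _).1 h3
      obtain ⟨f, hf, hfa, hfo⟩ := hprod b hb x
      obtain ⟨f', hf', hfa', hfo'⟩ := hprod c hc.1 y
      have hz : ∀ z ∈ Z, ∀ v : G, v * z = z * v := fun z hz v =>
        Subgroup.mem_center_iff.1 (hcen hz) v
      have h1 : ⁅f, f'⁆ = (Pi.mulSingle a ⁅x, y⁆ : Fin n → G) := by
        funext j
        have e1 : (⁅f, f'⁆ : Fin n → G) j = ⁅f j, f' j⁆ := rfl
        rw [e1]
        by_cases hj : j = a
        · subst hj
          rw [Pi.mulSingle_eq_same]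
          obtain ⟨z, hz1, hz2⟩ : ∃ z ∈ Z, f j = x * z :=
            ⟨x⁻¹ * f j, QuotientGroup.eq.1 hfa.symm, by group⟩
          obtain ⟨z', hz1', hz2'⟩ : ∃ z ∈ Z, f' j = y * z :=
            ⟨y⁻¹ * f' j, QuotientGroup.eq.1 hfa'.symm, by group⟩
          rw [hz2, hz2', commutatorElement_def, commutatorElement_def]
          have c1 := hz z hz1
          have c2 := hz z' hz1'
          rw [mul_inv_rev, mul_inv_rev]
          calc x * z * (y * z') * (z⁻¹ * x⁻¹) * (z'⁻¹ * y⁻¹)
              = x * (z * y) * z' * z⁻¹ * x⁻¹ * z'⁻¹ * y⁻¹ := by group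
            _ = x * (y * z) * z' * z⁻¹ * x⁻¹ * z'⁻¹ * y⁻¹ := by rw [c1 y]
            _ = x * y * (z * z') * z⁻¹ * x⁻¹ * z'⁻¹ * y⁻¹ := by group
            _ = x * y * (z' * z) * z⁻¹ * x⁻¹ * z'⁻¹ * y⁻¹ := by rw [c2 z]
            _ = x * y * (z' * x⁻¹) * z'⁻¹ * y⁻¹ := by group
            _ = x * y * (x⁻¹ * z') * z'⁻¹ * y⁻¹ := by rw [c2 x⁻¹]
            _ = x * y * x⁻¹ * y⁻¹ := by group
        · rw [Pi.mulSingle_eq_of_ne hj]
          by_cases hjb : j = b
          · have h2 := hfo' j hj (by rw [hjb]; exact fun h => hc.2 h.symm)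
            rw [commutatorElement_eq_one_iff_mul_comm]
            exact hz _ h2 _
          · have h2 := hfo j hj hjb
            rw [commutatorElement_eq_one_iff_mul_comm]
            exact (hz _ h2 _).symm
      refine hNe a _ ?_
      rw [← h1, commutatorElement_def]
      exact B.mul_mem (B.mul_mem (B.mul_mem hf hf') (B.inv_mem hf)) (B.inv_mem hf')
    · -- the center meets `Z` trivially
      have hZc : ∀ z ∈ Z, (∀ v : G, ⁅z, v⁆ = 1) → z = 1 := by
        intro z hz hv
        by_contra hz1
        have h1 : (Z ⊓ Subgroup.center G).Normal ∧ Z ⊓ Subgroup.center G ≠ ⊥ := by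
          refine ⟨inferInstance, fun h => hz1 ?_⟩
          have h2 : z ∈ Z ⊓ Subgroup.center G := ⟨hz, Subgroup.mem_center_iff.2 fun v =>
            (commutatorElement_eq_one_iff_mul_comm.1 (hv v)).symm⟩
          rwa [h, Subgroup.mem_bot] at h2
        exact hcen ((hZmin h1 inf_le_left).trans inf_le_right)
      have hcm : ∀ f ∈ B, ∀ f' ∈ B, ⁅f, f'⁆ ∈ B := fun f hf f' hf' => by
        rw [commutatorElement_def]
        exact B.mul_mem (B.mul_mem (B.mul_mem hf hf') (B.inv_mem hf)) (B.inv_mem hf')
      have hZcm : ∀ z ∈ Z, ∀ v : G, ⁅z, v⁆ ∈ Z := by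
        intro z hz v
        rw [commutatorElement_def, mul_assoc, mul_assoc]
        refine Z.mul_mem hz ?_
        rw [← mul_assoc]
        exact hZn.conj_mem _ (Z.inv_mem hz) v
      -- no element of `B` has all coordinates in `Z`
      have hBZ : ∀ (k : ℕ) (z : Fin n → G), z ∈ B → (∀ i, z i ∈ Z) →
          (Finset.univ.filter fun i => z i ≠ 1).card ≤ k → z = 1 := by
        intro k
        induction k with
        | zero =>
          intro z _ _ hz
          have h1 := Finset.card_eq_zero.1 (Nat.le_zero.1 hz)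
          funext i
          by_contra h2
          have h3 : i ∈ Finset.univ.filter fun i => z i ≠ 1 := by simpa using h2
          rw [h1] at h3
          simp at h3
        | succ k ihk =>
          intro z hzB hzZ hzc
          by_contra hz1
          obtain ⟨a, ha⟩ : ∃ a, z a ≠ 1 := by
            by_contra h2
            push Not at h2
            exact hz1 (funext h2)
          by_cases hb : ∃ b, b ≠ a ∧ z b ≠ 1
          · obtain ⟨b, hba, hb⟩ := hb
            have h1 : ∃ v : G, ⁅z a, v⁆ ≠ 1 := by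
              by_contra h2
              push Not at h2
              exact ha (hZc _ (hzZ a) h2)
            obtain ⟨v, hv⟩ := h1
            obtain ⟨f, hf, hfa, hfb⟩ := hB.pr a b hba.symm v 1
            have h2 := ihk ⁅z, f⁆ (hcm z hzB f hf) (fun i => hZcm _ (hzZ i) _) (by
              have h3 : (Finset.univ.filter fun i => (⁅z, f⁆ : Fin n → G) i ≠ 1) ⊆
                  (Finset.univ.filter fun i => z i ≠ 1).erase b := by
                intro i hi
                have h4 : (⁅z, f⁆ : Fin n → G) i ≠ 1 := by simpa using hi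
                have e1 : (⁅z, f⁆ : Fin n → G) i = ⁅z i, f i⁆ := rfl
                rw [e1] at h4
                rw [Finset.mem_erase]
                refine ⟨fun h5 => h4 ?_, ?_⟩
                · rw [h5, hfb, commutatorElement_one_right]
                · simp only [Finset.mem_filter, Finset.mem_univ, true_and]
                  intro h5
                  exact h4 (by rw [h5, commutatorElement_one_left])
              have h4 := Finset.card_le_card h3
              rw [Finset.card_erase_of_mem (by simpa using hb)] at h4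
              omega)
            have h3 := congrFun h2 a
            have e1 : (⁅z, f⁆ : Fin n → G) a = ⁅z a, f a⁆ := rfl
            rw [e1, hfa] at h3
            exact hv h3
          · push Not at hb
            have h1 : z = Pi.mulSingle a (z a) := by
              funext j
              by_cases hj : j = a
              · subst hj; rw [Pi.mulSingle_eq_same]
              · rw [Pi.mulSingle_eq_of_ne hj, hb j hj]
            rw [h1] at hzB
            exact ha (hNe a _ hzB)
      have hBZ' : ∀ z ∈ B, (∀ i, z i ∈ Z) → z = 1 := fun z hz hz2 => hBZ _ z hz hz2 le_rfl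
      -- commutators lie in `Z`
      have hcZ : commutator G ≤ Z := by
        intro c hc
        have a : Fin n := ⟨0, by omega⟩
        obtain ⟨b, hbB, hb⟩ := IH (Pi.mulSingle a (QuotientGroup.mk' Z c)) (by
          rw [Finset.prod_eq_single a]
          · rw [Pi.mulSingle_eq_same, of_eq_one]
            exact mk_comm Z hc
          · intro j _ hj
            rw [Pi.mulSingle_eq_of_ne hj, map_one]
          · intro h; exact absurd (Finset.mem_univ a) h)
        have hba : (c : G)⁻¹ * b a ∈ Z := by
          have h1 := congrFun hb a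
          rw [pim_apply, Pi.mulSingle_eq_same] at h1
          exact QuotientGroup.eq.1 h1.symm
        have hbo : ∀ j, j ≠ a → b j ∈ Z := by
          intro j hj
          have h1 := congrFun hb j
          rw [pim_apply, Pi.mulSingle_eq_of_ne hj] at h1
          exact (hZmk _).1 h1
        have hb1 : ∀ j, j ≠ a → b j = 1 := by
          intro j hj
          apply hZc _ (hbo j hj)
          intro v
          obtain ⟨f, hf, hfj, hfa⟩ := hB.pr j a hj v 1
          have h1 := hBZ' ⁅b, f⁆ (hcm b hbB f hf) (fun i => by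
            have e1 : (⁅b, f⁆ : Fin n → G) i = ⁅b i, f i⁆ := rfl
            rw [e1]
            by_cases hi : i = a
            · rw [hi, hfa, commutatorElement_one_right]
              exact Z.one_mem
            · exact hZcm _ (hbo i hi) _)
          have h2 := congrFun h1 j
          have e1 : (⁅b, f⁆ : Fin n → G) j = ⁅b j, f j⁆ := rfl
          rw [e1, hfj] at h2
          exact h2
        have h2 : b = Pi.mulSingle a (b a) := by
          funext j
          by_cases hj : j = a
          · subst hj; rw [Pi.mulSingle_eq_same]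
          · rw [Pi.mulSingle_eq_of_ne hj, hb1 j hj]
        rw [h2] at hbB
        have h3 := hNe a _ hbB
        rw [h3, mul_one] at hba
        exact (Subgroup.inv_mem_iff Z).1 hba
      apply hcomm
      intro x y
      have a : Fin n := ⟨0, by omega⟩
      obtain ⟨b, hb⟩ := hne a
      obtain ⟨f, hf, hfa, -⟩ := hB.pr a b hb.symm x 1
      obtain ⟨f', hf', hfa', -⟩ := hB.pr a b hb.symm y 1
      have h1 := hBZ' ⁅f, f'⁆ (hcm f hf f' hf') (fun i => by
        have e1 : (⁅f, f'⁆ : Fin n → G) i = ⁅f i, f' i⁆ := rfl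
        rw [e1]
        apply hcZ
        rw [commutator_def]
        exact Subgroup.commutator_mem_commutator (Subgroup.mem_top _) (Subgroup.mem_top _))
      have h2 := congrFun h1 a
      have e1 : (⁅f, f'⁆ : Fin n → G) a = ⁅f a, f' a⁆ := rfl
      rw [e1, hfa, hfa'] at h2
      exact h2
  · intro c hc a
    have hq := card_lt N hNb
    rw [hm] at hq
    have IH := ih _ hq (G ⧸ N) rfl _ (hB.map (QuotientGroup.mk' N)
      (QuotientGroup.mk'_surjective N))
    obtain ⟨b, hbB, hb⟩ := IH (Pi.mulSingle a (QuotientGroup.mk' N c)) (by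
      rw [Finset.prod_eq_single a]
      · rw [Pi.mulSingle_eq_same, of_eq_one]
        exact mk_comm N hc
      · intro j _ hj
        rw [Pi.mulSingle_eq_of_ne hj, map_one]
      · intro h; exact absurd (Finset.mem_univ a) h)
    have h1 : (Pi.mulSingle a c : Fin n → G) * b⁻¹ ∈ B := by
      apply hpi
      intro i
      have h2 := congrFun hb i
      rw [pim_apply] at h2
      rw [Pi.mul_apply, Pi.inv_apply]
      by_cases hi : i = a
      · subst hi
        rw [Pi.mulSingle_eq_same] at h2 ⊢
        have h3 := QuotientGroup.eq.1 h2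
        have h4 := hNn.conj_mem _ h3 (b i)
        rwa [mul_inv_cancel_left] at h4
      · rw [Pi.mulSingle_eq_of_ne hi] at h2 ⊢
        rw [one_mul]
        refine N.inv_mem ?_
        rw [← QuotientGroup.ker_mk' N, MonoidHom.mem_ker]
        exact h2
    have h2 := B.mul_mem h1 hbB
    rwa [inv_mul_cancel_right] at h2

end Pool.Agent.X285.PA
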