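import Mathlib
import Pool.Agent.X285.PA.GpA
import Pool.Agent.Y241.WR.Grp

/-!
# The kernel of `G ≀ A_n → G^ab`
-/

set_option autoImplicit false

namespace Pool.Agent.X285.PA

open Equiv Pool.Agent.H391R2 Pool.Agent.Y793 Pool.Agent.Y241.WR

open scoped commutatorElement

/-- The product of the classes of the coordinates. -/
noncomputable def wc (G : Type) [Group G] (n : ℕ) : Wr G n →* Abelianization G :=
  MonoidHom.mk' (fun x => ∏ i, Abelianization.of (x.left i)) (fun a b => by
    simp only [wr_mul_left, map_mul, Finset.prod_mul_distrib]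
    congr 1
    exact Equiv.prod_comp a.right⁻¹ (fun i => Abelianization.of (b.left i)))

theorem wc_apply {G : Type} [Group G] {n : ℕ} (x : Wr G n) :
    wc G n x = ∏ i, Abelianization.of (x.left i) := rfl

/-- The kernel of `G ≀ A_n → G^ab`. -/
noncomputable def WW (G : Type) [Group G] (n : ℕ) : Subgroup (Wr G n) :=
  AWr G n ⊓ (wc G n).ker

theorem mem_WW {G : Type} [Group G] {n : ℕ} (x : Wr G n) :
    x ∈ WW G n ↔ Perm.sign x.right = 1 ∧ ∏ i, Abelianization.of (x.left i) = 1 := Iff.rfl

theorem WW_le {G : Type} [Group G] {n : ℕ} : WW G n ≤ AWr G n := inf_le_left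

theorem inl_mem_WW {G : Type} [Group G] {n : ℕ} {f : Fin n → G}
    (hf : ∏ i, Abelianization.of (f i) = 1) : (SemidirectProduct.inl f : Wr G n) ∈ WW G n := by
  rw [mem_WW]
  exact ⟨by rw [SemidirectProduct.right_inl, map_one], hf⟩

theorem inr_mem_WW {G : Type} [Group G] {n : ℕ} {σ : Perm (Fin n)} (hσ : Perm.sign σ = 1) :
    (SemidirectProduct.inr σ : Wr G n) ∈ WW G n := by
  rw [mem_WW]
  refine ⟨hσ, ?_⟩
  rw [SemidirectProduct.left_inr]
  simp

theorem alt_comm {n : ℕ} (hn : 5 ≤ n) :
    ⁅alternatingGroup (Fin n), alternatingGroup (Fin n)⁆ = alternatingGroup (Fin n) := by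
  rw [← Subgroup.map_subtype_commutator, commutator_alternatingGroup_eq_top (by simpa using hn),
    ← MonoidHom.range_eq_map, Subgroup.range_subtype]

section grp

variable {G : Type} [Group G] {n : ℕ} (H : Subgroup (Wr G n))

theorem exists_over (hn : 5 ≤ n) (hA : ∀ σ : Perm (Fin n), Perm.sign σ = 1 → ∃ x ∈ H, x.right = σ)
    (σ : Perm (Fin n)) (hσ : Perm.sign σ = 1) : ∃ x ∈ H, x.right = σ ∧ wc G n x = 1 := by
  have h1 : alternatingGroup (Fin n) ≤ H.map SemidirectProduct.rightHom := by
    intro τ hτ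
    obtain ⟨x, hx, hxτ⟩ := hA τ (Perm.mem_alternatingGroup.1 hτ)
    exact ⟨x, hx, hxτ⟩
  have h2 : alternatingGroup (Fin n) ≤ (⁅H, H⁆).map SemidirectProduct.rightHom := by
    rw [Subgroup.map_commutator]
    conv_lhs => rw [← alt_comm hn]
    exact Subgroup.commutator_mono h1 h1
  obtain ⟨x, hx, hxσ⟩ := h2 (Perm.mem_alternatingGroup.2 hσ)
  refine ⟨x, Subgroup.commutator_le_self H hx, hxσ, ?_⟩
  have h3 : ⁅H, H⁆ ≤ (wc G n).ker := by
    rw [Subgroup.commutator_le]
    intro a _ b _
    rw [MonoidHom.mem_ker, map_commutatorElement, commutatorElement_eq_one_iff_mul_comm, mul_comm]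
  exact h3 hx

theorem good_Bs [Finite G] (hn : 7 ≤ n) (hc : 2 * (Nat.card G) ^ 2 < (n - 2).factorial)
    (hle : H ≤ AWr G n)
    (h2 : ∀ a b a' b' : Fin n, a ≠ b → a' ≠ b' → ∀ g h : G, ∃ x ∈ H,
      x.right a = a' ∧ x.right b = b' ∧ x.left a' = g ∧ x.left b' = h)
    (hA : ∀ σ : Perm (Fin n), Perm.sign σ = 1 → ∃ x ∈ H, x.right = σ) : Good (Bs H) where
  pr a b hab g h := by
    obtain ⟨x, hx, hxa, hxb, hx1, hx2⟩ := h2 a b a b hab hab g h
    have hsg : Perm.sign x.right = 1 := hle hx
    obtain ⟨z, hz, hzr, hza, hzb⟩ := kill H hn hc hA hab x.right hsg hxa hxb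
    have hr : (x * z⁻¹).right = 1 := by
      rw [wr_mul_right, SemidirectProduct.inv_right, hzr, mul_inv_cancel]
    refine ⟨(x * z⁻¹).left, ?_, ?_, ?_⟩
    · change (SemidirectProduct.inl (x * z⁻¹).left : Wr G n) ∈ H
      have h5 := SemidirectProduct.inl_left_mul_inr_right (x * z⁻¹)
      rw [hr, map_one, mul_one] at h5
      rw [h5]
      exact H.mul_mem hx (H.inv_mem hz)
    · rw [wr_mul_left, inv_fix hxa, wr_inv_left, hzr, hxa, hza, inv_one, mul_one, hx1]
    · rw [wr_mul_left, inv_fix hxb, wr_inv_left, hzr, hxb, hzb, inv_one, mul_one, hx2]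
  tw σ hσ := by
    obtain ⟨x, hx, hxσ⟩ := hA σ hσ
    refine ⟨x.left, fun f hf => ?_⟩
    change (SemidirectProduct.inl _ : Wr G n) ∈ H
    have h1 : x * SemidirectProduct.inl f * x⁻¹ ∈ H :=
      H.mul_mem (H.mul_mem hx hf) (H.inv_mem hx)
    have h3 : x * SemidirectProduct.inl f * x⁻¹ =
        (SemidirectProduct.inl (fun j => x.left j * f (σ⁻¹ j) * (x.left j)⁻¹) : Wr G n) := by
      apply SemidirectProduct.ext
      · funext j
        rw [wr_mul_left, wr_mul_left, wr_inv_left, wr_mul_right, SemidirectProduct.left_inl,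
          SemidirectProduct.left_inl, SemidirectProduct.right_inl, mul_one, ← hxσ]
        simp
      · rw [wr_mul_right, wr_mul_right, SemidirectProduct.inv_right, SemidirectProduct.right_inl,
          SemidirectProduct.right_inl, mul_one, mul_inv_cancel]
    rwa [h3] at h1

/-- A group of even elements which is transitive on labelled pairs and contains an element over a
three-cycle contains `WW G n`. -/
theorem grp_gen [Finite G] (hn : 7 ≤ n) (hc : 2 * (Nat.card G) ^ 2 < (n - 2).factorial)
    (hle : H ≤ AWr G n)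
    (h2 : ∀ a b a' b' : Fin n, a ≠ b → a' ≠ b' → ∀ g h : G, ∃ x ∈ H,
      x.right a = a' ∧ x.right b = b' ∧ x.left a' = g ∧ x.left b' = h)
    (h3 : ∃ x ∈ H, x.right.IsThreeCycle) : WW G n ≤ H := by
  intro w hw
  have hA := alt_le H h2 h3
  have hB := main (n := n) (by omega) _ G rfl (Bs H) (good_Bs H hn hc hle h2 hA)
  obtain ⟨x, hx, hxw, hx1⟩ := exists_over H (by omega) hA w.right hw.1
  have hr : (w * x⁻¹).right = 1 := by
    rw [wr_mul_right, SemidirectProduct.inv_right, hxw, mul_inv_cancel]
  have h5 := SemidirectProduct.inl_left_mul_inr_right (w * x⁻¹)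
  rw [hr, map_one, mul_one] at h5
  have h6 : w * x⁻¹ ∈ H := by
    rw [← h5]
    refine hB _ ?_
    have h7 : wc G n (w * x⁻¹) = 1 := by
      have h8 : wc G n w = 1 := hw.2
      rw [map_mul, map_inv, h8, hx1, inv_one, mul_one]
    exact h7
  have := H.mul_mem h6 hx
  rwa [inv_mul_cancel_right] at this

end grp

section perf

variable {G : Type} [Group G] {n : ℕ}

theorem inl_pair {a b : Fin n} (_ : a ≠ b) (g : G) :
    ∏ i, Abelianization.of ((Pi.mulSingle a g * Pi.mulSingle b g⁻¹ : Fin n → G) i) = 1 := by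
  classical
  have h1 : ∀ (a : Fin n) (u : G), ∏ i, Abelianization.of
      ((Pi.mulSingle a u : Fin n → G) i) = Abelianization.of u := by
    intro a u
    rw [Finset.prod_eq_single a]
    · rw [Pi.mulSingle_eq_same]
    · intro j _ hj
      rw [Pi.mulSingle_eq_of_ne hj, map_one]
    · intro h; exact absurd (Finset.mem_univ a) h
  simp only [Pi.mul_apply, map_mul, Finset.prod_mul_distrib]
  rw [h1, h1, map_inv, mul_inv_cancel]

theorem ww_perf (hn : 5 ≤ n) : ⁅WW G n, WW G n⁆ = WW G n := by
  classical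
  refine le_antisymm (Subgroup.commutator_le_self _) ?_
  -- pairs
  have hpair : ∀ b c : Fin n, b ≠ c → ∀ g : G, (SemidirectProduct.inl
      (Pi.mulSingle b g * Pi.mulSingle c g⁻¹ : Fin n → G) : Wr G n) ∈ ⁅WW G n, WW G n⁆ := by
    intro b c hbc g
    obtain ⟨a, ha⟩ := exists_notMem ({b, c} : Finset (Fin n))
      (lt_of_le_of_lt Finset.card_le_two (by omega))
    obtain ⟨d, hd⟩ := exists_notMem ({b, c, a} : Finset (Fin n))
      (lt_of_le_of_lt Finset.card_le_three (by omega))
    simp only [Finset.mem_insert, Finset.mem_singleton, not_or, ← ne_eq] at ha hd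
    obtain ⟨hab, hac⟩ := ha
    obtain ⟨hdb, hdc, hda⟩ := hd
    have hs : (SemidirectProduct.inl (Pi.mulSingle a g * Pi.mulSingle c g⁻¹ : Fin n → G) :
        Wr G n) ∈ WW G n := inl_mem_WW (inl_pair hac g)
    have ht : (SemidirectProduct.inr (cyc c b d) : Wr G n) ∈ WW G n :=
      inr_mem_WW (cyc_sign hbc.symm hdb.symm)
    have h1 := Subgroup.commutator_mem_commutator hs ht
    have h2 : ⁅(SemidirectProduct.inl (Pi.mulSingle a g * Pi.mulSingle c g⁻¹ : Fin n → G) :
        Wr G n), (SemidirectProduct.inr (cyc c b d) : Wr G n)⁆ =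
        SemidirectProduct.inl (Pi.mulSingle b g * Pi.mulSingle c g⁻¹ : Fin n → G) := by
      rw [commutatorElement_def, mul_assoc, mul_assoc]
      apply SemidirectProduct.ext
      · funext j
        rw [wr_mul_left, wr_mul_left, wr_mul_left, wr_inv_left, wr_inv_left]
        simp only [SemidirectProduct.left_inl, SemidirectProduct.right_inl,
          SemidirectProduct.left_inr, SemidirectProduct.right_inr, SemidirectProduct.inv_right,
          Pi.one_apply, one_mul, inv_one, mul_one, Perm.coe_one, id_eq]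
        by_cases h3 : j = b
        · subst h3
          rw [cyc_inv_b hbc.symm hdc.symm]
          simp [hbc, hac, hab]
        · by_cases h4 : j = c
          · subst h4
            rw [cyc_inv_a hdc.symm]
            simp [Pi.mulSingle_apply, hda, hdc, hac.symm, h3]
          · by_cases h5 : j = d
            · subst h5
              rw [cyc_inv_c hdb.symm hdc.symm]
              simp [Pi.mulSingle_apply, hda, hdc, hdb, hab.symm, hbc]
            · rw [cyc_inv_other h4 h3 h5]
              simp [Pi.mulSingle_apply, h3, h4]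
      · simp
    rwa [h2] at h1
  -- single commutators
  have hsing : ∀ (a : Fin n) (g h : G), (SemidirectProduct.inl
      (Pi.mulSingle a ⁅g, h⁆ : Fin n → G) : Wr G n) ∈ ⁅WW G n, WW G n⁆ := by
    intro a g h
    obtain ⟨b, hb⟩ := exists_notMem ({a} : Finset (Fin n)) (by
      rw [Finset.card_singleton]; omega)
    obtain ⟨c, hc⟩ := exists_notMem ({a, b} : Finset (Fin n))
      (lt_of_le_of_lt Finset.card_le_two (by omega))
    simp only [Finset.mem_insert, Finset.mem_singleton, not_or, ← ne_eq] at hb hc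
    obtain ⟨hca, hcb⟩ := hc
    have h1 := Subgroup.commutator_mem_commutator
      (inl_mem_WW (inl_pair hb.symm g)) (inl_mem_WW (inl_pair hca.symm h))
    rw [← map_commutatorElement] at h1
    have h2 : ⁅(Pi.mulSingle a g * Pi.mulSingle b g⁻¹ : Fin n → G),
        (Pi.mulSingle a h * Pi.mulSingle c h⁻¹ : Fin n → G)⁆ = Pi.mulSingle a ⁅g, h⁆ := by
      funext j
      simp only [commutatorElement_def, Pi.mul_apply, Pi.inv_apply]
      by_cases h3 : j = a
      · subst h3
        simp [Pi.mulSingle_apply, hb.symm, hca.symm]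
      · by_cases h4 : j = b
        · subst h4
          simp [Pi.mulSingle_apply, hb, hcb.symm]
        · simp [Pi.mulSingle_apply, h3, h4]
    rwa [h2] at h1
  -- the base
  have hbase : ∀ f : Fin n → G, ∏ i, Abelianization.of (f i) = 1 →
      (SemidirectProduct.inl f : Wr G n) ∈ ⁅WW G n, WW G n⁆ := by
    refine all_gen ((⁅WW G n, WW G n⁆).comap SemidirectProduct.inl) ?_ ?_
    · intro a c hc
      have h1 : commutator G ≤ ((⁅WW G n, WW G n⁆).comap
          ((SemidirectProduct.inl : (Fin n → G) →* Wr G n).comp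
            (MonoidHom.mulSingle (fun _ : Fin n => G) a))) := by
        rw [commutator_def, Subgroup.commutator_le]
        intro u _ v _
        exact hsing a u v
      exact h1 hc
    · intro a d had g
      obtain ⟨g, rfl⟩ := QuotientGroup.mk_surjective g
      refine ⟨Pi.mulSingle a g * Pi.mulSingle d g⁻¹, hpair a d had g, ?_⟩
      rw [map_mul, pim_single, pim_single]
      rfl
  have hinr : ∀ σ : Perm (Fin n), Perm.sign σ = 1 →
      (SemidirectProduct.inr σ : Wr G n) ∈ ⁅WW G n, WW G n⁆ := by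
    intro σ hσ
    have h1 : alternatingGroup (Fin n) ≤
        (⁅WW G n, WW G n⁆).comap (SemidirectProduct.inr : Perm (Fin n) →* Wr G n) := by
      rw [← alt_comm hn, Subgroup.commutator_le]
      intro a ha b hb
      rw [Subgroup.mem_comap, map_commutatorElement]
      exact Subgroup.commutator_mem_commutator
        (inr_mem_WW (Perm.mem_alternatingGroup.1 ha)) (inr_mem_WW (Perm.mem_alternatingGroup.1 hb))
    exact h1 (Perm.mem_alternatingGroup.2 hσ)
  intro w hw
  rw [← SemidirectProduct.inl_left_mul_inr_right w]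
  exact Subgroup.mul_mem _ (hbase _ hw.2) (hinr _ hw.1)

end perf

end Pool.Agent.X285.PA
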