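import Mathlib
import Pool.Agent.TH377.IG.HilbInf

/-!
# Infinite sequences of realisations which are independent on perfect subgroups
-/

set_option autoImplicit false

namespace Pool.Agent.X285.PA

open IntermediateField AlgEquiv
open Pool.Agent.H391R2.T4 (RegSol HilbField)
open Pool.Agent.TH377.IG
open scoped commutatorElement

/-- A finite group `X` with a perfect normal subgroup `W` such that `X / W` is abelian, and a
regular proper solution of an embedding problem whose kernel contains `W`. -/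
structure Dat (K : Type) [Field K] where
  X : Type
  gX : Group X
  fX : Finite X
  W : Subgroup X
  L : Type
  fL : Field L
  aL : Algebra K L
  fd : FiniteDimensional K L
  gl : IsGalois K L
  α : X →* (L ≃ₐ[K] L)
  reg : RegSol K L X α
  hα : ∀ w ∈ W, α w = 1
  perf : W ≤ ⁅W, W⁆
  comm : ⁅(⊤ : Subgroup X), (⊤ : Subgroup X)⁆ ≤ W

attribute [instance] Dat.gX Dat.fX Dat.fL Dat.aL Dat.fd Dat.gl

section

variable {K Ω : Type} [Field K] [Field Ω] [Algebra K Ω] [IsGalois K Ω] [IsSepClosed Ω]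

theorem step_out (hK : SpecProp K) (D : Dat K) (B : IntermediateField K Ω)
    (hB : Pool.Agent.H451R6.FG B) :
    ∃ (B' : IntermediateField K Ω) (q : Gal(Ω/K) →* D.X), Pool.Agent.H451R6.FG B' ∧ B ≤ B' ∧
      B'.fixingSubgroup ≤ q.ker ∧ Function.Surjective q ∧
      ∀ w ∈ D.W, ∃ b ∈ B.fixingSubgroup, b ∈ ⁅(⊤ : Subgroup Gal(Ω/K)), (⊤ : Subgroup Gal(Ω/K))⁆ ∧
        q b = w := by
  let ι : D.L →ₐ[K] Ω := IsSepClosed.lift
  have hLf : FiniteDimensional K ι.fieldRange :=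
    LinearEquiv.finiteDimensional ι.equivFieldRange.toLinearEquiv
  have hLg : IsGalois K ι.fieldRange := IsGalois.of_algEquiv ι.equivFieldRange
  have hL₀ : Pool.Agent.H451R6.FG ι.fieldRange := ⟨hLf, hLg⟩
  have hB₁ : Pool.Agent.H451R6.FG (B ⊔ ι.fieldRange) := fg_sup hB hL₀
  obtain ⟨E, hE, hBE, q, hq, hker, hact⟩ := stepS hK D.L D.X D.α D.reg ι (B ⊔ ι.fieldRange) hB₁
    le_sup_right
  have nB : (B ⊔ ι.fieldRange).fixingSubgroup.Normal := fg_normal hB₁
  have hW : D.W ≤ (B ⊔ ι.fieldRange).fixingSubgroup.map q := by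
    intro w hw
    obtain ⟨σ, hσ⟩ := hq w
    have h1 : σ ∈ (B ⊔ ι.fieldRange).fixingSubgroup ⊔ E.fixingSubgroup := by
      rw [sup_fix _ _ hE, hBE, IntermediateField.mem_fixingSubgroup_iff]
      rintro _ ⟨x, rfl⟩
      have h2 := hact σ x
      rw [hσ, D.hα w hw] at h2
      exact h2
    obtain ⟨a, ha, e, he, rfl⟩ := Subgroup.mem_sup_of_normal_left.1 h1
    refine ⟨a, ha, ?_⟩
    rw [← hker, MonoidHom.mem_ker] at he
    rw [← hσ, map_mul, he, mul_one]
  refine ⟨(B ⊔ ι.fieldRange) ⊔ E, q, fg_sup hB₁ hE, le_sup_left.trans le_sup_left, ?_, hq, ?_⟩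
  · rw [hker]
    exact fixingSubgroup_le le_sup_right
  · intro w hw
    have h1 : w ∈ (⁅(B ⊔ ι.fieldRange).fixingSubgroup, (B ⊔ ι.fieldRange).fixingSubgroup⁆).map q := by
      rw [Subgroup.map_commutator]
      exact Subgroup.commutator_mono hW hW (D.perf hw)
    obtain ⟨b, hb, rfl⟩ := h1
    exact ⟨b, (fixingSubgroup_le le_sup_left) (Subgroup.commutator_le_self _ hb),
      Subgroup.commutator_mono le_top le_top hb, rfl⟩

/-- The main construction. -/
theorem rec_main (hK : SpecProp K) (M : IntermediateField K Ω) (hM : Pool.Agent.H451R6.FG M)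
    (D : ℕ → Dat K) :
    ∃ q : ∀ i, Gal(Ω/K) →* (D i).X, (∀ i, Function.Surjective (q i)) ∧
      (∀ i, IsOpen ((q i).ker : Set Gal(Ω/K))) ∧
      ∀ τ : ∀ i, (D i).X, (∀ i, τ i ∈ (D i).W) →
        ∃ σ ∈ M.fixingSubgroup, ∀ i, q i σ = τ i := by
  classical
  choose c p h1 h2 h3 h4 h5 using fun (i : ℕ) (B : {B : IntermediateField K Ω //
    Pool.Agent.H451R6.FG B}) => step_out hK (D i) B.1 B.2
  let B : ℕ → {B : IntermediateField K Ω // Pool.Agent.H451R6.FG B} := fun n =>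
    Nat.rec ⟨M, hM⟩ (fun i b => ⟨c i b, h1 i b⟩) n
  have hBs : ∀ i, (B (i + 1)).1 = c i (B i) := fun i => rfl
  have hmono : Monotone fun i => (B i).1 := monotone_nat_of_le_succ fun i => by
    rw [hBs i]
    exact h2 i (B i)
  have hker : ∀ i j, i < j → (B j).1.fixingSubgroup ≤ (p i (B i)).ker := fun i j hij =>
    (fixingSubgroup_le (hmono hij)).trans (h3 i (B i))
  refine ⟨fun i => p i (B i), fun i => h4 i (B i), fun i => ?_, fun τ hτ => ?_⟩
  · exact Subgroup.isOpen_mono (h3 i (B i)) (fg_open (h1 i (B i)))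
  have hqo : ∀ i, IsOpen ((p i (B i)).ker : Set Gal(Ω/K)) := fun i =>
    Subgroup.isOpen_mono (h3 i (B i)) (fg_open (h1 i (B i)))
  let C : ℕ → Set Gal(Ω/K) := fun n =>
    {σ | σ ∈ M.fixingSubgroup} ∩ ⋂ i ∈ Set.Iio n, {σ | p i (B i) σ = τ i}
  have hmem : ∀ n σ, σ ∈ C n ↔ σ ∈ M.fixingSubgroup ∧ ∀ i < n, p i (B i) σ = τ i := by
    intro n σ
    simp [C]
  have hne' : ∀ n, ∃ σ ∈ C n, σ ∈ ⁅(⊤ : Subgroup Gal(Ω/K)), (⊤ : Subgroup Gal(Ω/K))⁆ := by
    intro n
    induction n with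
    | zero => exact ⟨1, (hmem _ _).2 ⟨one_mem _, fun i hi => absurd hi (Nat.not_lt_zero i)⟩,
        one_mem _⟩
    | succ n ih =>
      obtain ⟨σ, hσ, hσc⟩ := ih
      rw [hmem] at hσ
      have h6 : p n (B n) σ ∈ (D n).W := by
        apply (D n).comm
        have h7 : p n (B n) σ ∈ (⁅(⊤ : Subgroup Gal(Ω/K)), (⊤ : Subgroup Gal(Ω/K))⁆).map
            (p n (B n)) := ⟨σ, hσc, rfl⟩
        rw [Subgroup.map_commutator] at h7
        exact Subgroup.commutator_mono le_top le_top h7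
      obtain ⟨b, hb1, hb2, hb3⟩ := h5 n (B n) ((p n (B n) σ)⁻¹ * τ n)
        (mul_mem (inv_mem h6) (hτ n))
      refine ⟨σ * b, (hmem _ _).2 ⟨mul_mem hσ.1 ((fixingSubgroup_le (hmono (Nat.zero_le n))) hb1),
        fun i hi => ?_⟩, mul_mem hσc hb2⟩
      rcases Nat.lt_succ_iff_lt_or_eq.1 hi with h | h
      · have h8 : p i (B i) b = 1 := hker i n h hb1
        rw [map_mul, h8, mul_one, hσ.2 i h]
      · subst h
        rw [map_mul, hb3, mul_inv_cancel_left]
  have hne : ∀ n, (C n).Nonempty := fun n => by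
    obtain ⟨σ, hσ, -⟩ := hne' n
    exact ⟨σ, hσ⟩
  have hcl1 : ∀ i, IsClosed {σ : Gal(Ω/K) | p i (B i) σ = τ i} := by
    intro i
    obtain ⟨t, ht⟩ := h4 i (B i) (τ i)
    have h6 : {σ : Gal(Ω/K) | p i (B i) σ = τ i} = (fun σ => t⁻¹ * σ) ⁻¹'
        ((p i (B i)).ker : Set Gal(Ω/K)) := by
      ext σ
      rw [Set.mem_preimage, SetLike.mem_coe, MonoidHom.mem_ker, map_mul, map_inv, ht,
        inv_mul_eq_one]
      exact eq_comm
    rw [h6]
    exact (Subgroup.isClosed_of_isOpen _ (hqo i)).preimage (continuous_const_mul t⁻¹)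
  have hclosed : ∀ n, IsClosed (C n) := fun n =>
    (InfiniteGalois.fixingSubgroup_isClosed M).inter (isClosed_biInter fun i _ => hcl1 i)
  have hdec : ∀ n, C (n + 1) ⊆ C n := fun n σ hσ => by
    rw [hmem] at hσ ⊢
    exact ⟨hσ.1, fun i hi => hσ.2 i (by omega)⟩
  obtain ⟨σ, hσ⟩ := IsCompact.nonempty_iInter_of_sequence_nonempty_isCompact_isClosed C hdec hne
    (hclosed 0).isCompact hclosed
  rw [Set.mem_iInter] at hσ
  exact ⟨σ, ((hmem _ _).1 (hσ 0)).1,
    fun i => ((hmem _ _).1 (hσ (i + 1))).2 i (Nat.lt_succ_self i)⟩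

end

end Pool.Agent.X285.PA
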