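import Mathlib
import Pool.Agent.X285.PA.Core
import Pool.Agent.X285.PA.Rec

/-!
# The group theoretic data attached to a finite group
-/

set_option autoImplicit false
set_option linter.unusedSectionVars false

namespace Pool.Agent.X285.PA

open Equiv Pool.Agent.H391R2 Pool.Agent.Y793
open Pool.Agent.H391R2.T4 (RegSol HilbField)

open scoped commutatorElement

/-- Functoriality of the wreath product. -/
noncomputable def wrM {G H : Type} [Group G] [Group H] (f : G →* H) (n : ℕ) : Wr G n →* Wr H n :=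
  MonoidHom.mk' (fun x => ⟨fun i => f (x.left i), x.right⟩) (fun a b => by
    apply SemidirectProduct.ext
    · funext i
      change f ((a * b).left i) = _
      rw [wr_mul_left, map_mul]
      rfl
    · rfl)

section

variable {G P A : Type} [Group G] [Group P] [Group A] {n₁ n₂ : ℕ}

/-- The homomorphism of a subgroup of `P ≀ A_n` to `A ≀ A_n`. -/
noncomputable def fmap (f : P →* A) (n₂ : ℕ) (X : Subgroup (Wr P n₂)) (hX : X ≤ AWr P n₂) :
    X →* AWr A n₂ :=
  ((wrM f n₂).comp X.subtype).codRestrict (AWr A n₂) (fun x => hX x.2)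

theorem fmap_left (f : P →* A) (X : Subgroup (Wr P n₂)) (hX : X ≤ AWr P n₂) (x : X) (i : Fin n₂) :
    (fmap f n₂ X hX x : Wr A n₂).left i = f ((x : Wr P n₂).left i) := rfl

theorem fmap_right (f : P →* A) (X : Subgroup (Wr P n₂)) (hX : X ≤ AWr P n₂) (x : X) :
    (fmap f n₂ X hX x : Wr A n₂).right = (x : Wr P n₂).right := rfl

theorem mem_ker_fmap (f : P →* A) (X : Subgroup (Wr P n₂)) (hX : X ≤ AWr P n₂) (x : X) :
    x ∈ (fmap f n₂ X hX).ker ↔ (x : Wr P n₂).right = 1 ∧ ∀ i, f ((x : Wr P n₂).left i) = 1 := by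
  rw [MonoidHom.mem_ker]
  constructor
  · intro h
    refine ⟨?_, fun i => ?_⟩
    · rw [← fmap_right f X hX, h]
      rfl
    · rw [← fmap_left f X hX, h]
      rfl
  · rintro ⟨h1, h2⟩
    apply Subtype.ext
    apply SemidirectProduct.ext
    · funext i
      rw [fmap_left, h2]
      rfl
    · rw [fmap_right, h1]
      rfl

/-- The coordinate of an element of the kernel. -/
noncomputable def gmap (f : P →* A) (X : Subgroup (Wr P n₂)) (hX : X ≤ AWr P n₂) (j : Fin n₂)
    (c : f.ker →* G) : (fmap f n₂ X hX).ker →* G :=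
  MonoidHom.mk' (fun x => c ⟨(x : X).1.left j, ((mem_ker_fmap f X hX x.1).1 x.2).2 j⟩)
    (fun a b => by
      rw [← map_mul]
      congr 1
      apply Subtype.ext
      change ((a : X).1 * (b : X).1).left j = (a : X).1.left j * (b : X).1.left j
      rw [wr_mul_left, ((mem_ker_fmap f X hX a.1).1 a.2).1]
      rfl)

/-- Surjectivity of `fmap` on `WW`. -/
theorem fmap_surj (f : P →* A) (hf : Function.Surjective f) (hA : commutator A = ⊤)
    (X : Subgroup (Wr P n₂)) (hX : X ≤ AWr P n₂) (hW : WW P n₂ ≤ X) (y : AWr A n₂) :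
    ∃ w ∈ (WW P n₂).subgroupOf X, fmap f n₂ X hX w = y := by
  have h1 : ∀ a : A, ∃ p : P, Abelianization.of p = 1 ∧ f p = a := by
    intro a
    have h2 : a ∈ (commutator P).map f := by
      rw [commutator_def, Subgroup.map_commutator, ← MonoidHom.range_eq_map,
        MonoidHom.range_eq_top.2 hf, ← commutator_def, hA]
      exact Subgroup.mem_top a
    obtain ⟨p, hp, rfl⟩ := h2
    exact ⟨p, (QuotientGroup.eq_one_iff p).2 hp, rfl⟩
  choose s hs1 hs2 using h1
  let w : Wr P n₂ := ⟨fun i => s ((y : Wr A n₂).left i), (y : Wr A n₂).right⟩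
  have hw : w ∈ WW P n₂ := by
    rw [mem_WW]
    exact ⟨y.2, Finset.prod_eq_one fun i _ => hs1 _⟩
  refine ⟨⟨w, hW hw⟩, hw, ?_⟩
  apply Subtype.ext
  apply SemidirectProduct.ext
  · funext i
    rw [fmap_left]
    exact hs2 _
  · rw [fmap_right]

/-- Surjectivity of `gmap` on `WW`. -/
theorem gmap_surj (f : P →* A) (X : Subgroup (Wr P n₂)) (hX : X ≤ AWr P n₂) (hW : WW P n₂ ≤ X)
    (hn : 2 ≤ n₂) (j : Fin n₂) (c : f.ker →* G) (hc : Function.Surjective c) (a : G) :
    ∃ (w : X) (hw : w ∈ (fmap f n₂ X hX).ker), w ∈ (WW P n₂).subgroupOf X ∧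
      gmap f X hX j c ⟨w, hw⟩ = a := by
  obtain ⟨p, hp⟩ := hc a
  have hnt : Nontrivial (Fin n₂) := Fin.nontrivial_iff_two_le.2 hn
  obtain ⟨i, hi⟩ := exists_ne j
  let w : Wr P n₂ := SemidirectProduct.inl
    (Pi.mulSingle j (p : P) * Pi.mulSingle i (p : P)⁻¹ : Fin n₂ → P)
  have hw : w ∈ WW P n₂ := inl_mem_WW (inl_pair hi.symm _)
  have hker : (⟨w, hW hw⟩ : X) ∈ (fmap f n₂ X hX).ker := by
    rw [mem_ker_fmap]
    refine ⟨rfl, fun l => ?_⟩
    change f ((Pi.mulSingle j (p : P) * Pi.mulSingle i (p : P)⁻¹ : Fin n₂ → P) l) = 1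
    rw [Pi.mul_apply, map_mul]
    have h1 : ∀ (b : Fin n₂) (q : P), f q = 1 →
        f ((Pi.mulSingle b q : Fin n₂ → P) l) = 1 := by
      intro b q hq
      rw [Pi.mulSingle_apply]
      split_ifs
      · exact hq
      · exact map_one f
    rw [h1 j _ p.2, h1 i _ (inv_mem p.2), mul_one]
  refine ⟨⟨w, hW hw⟩, hker, hw, ?_⟩
  rw [← hp]
  change c ⟨(Pi.mulSingle j (p : P) * Pi.mulSingle i (p : P)⁻¹ : Fin n₂ → P) j, _⟩ = c p
  congr 1
  apply Subtype.ext
  change (Pi.mulSingle j (p : P) * Pi.mulSingle i (p : P)⁻¹ : Fin n₂ → P) j = p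
  rw [Pi.mul_apply, Pi.mulSingle_eq_same, Pi.mulSingle_eq_of_ne hi.symm, mul_one]

end

section dat

variable {K P : Type} [Field K] [Group P] [Finite P] {n : ℕ}

/-- The data attached to a group `X`. -/
theorem exists_dat (hn : 5 ≤ n) (h : Mid K P n) :
    ∃ (D : Dat K) (X : Subgroup (Wr P n)) (hX : X ≤ AWr P n) (hW : WW P n ≤ X) (e : D.X ≃* X),
      ∀ x : D.X, x ∈ D.W ↔ e x ∈ (WW P n).subgroupOf X := by
  obtain ⟨X, L, i1, i2, p, i3, i4, hW, hX, hp, hreg⟩ := h
  have hf : Finite (Wr P n) := T4.finite_wr P n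
  refine ⟨{ X := X
            gX := inferInstance
            fX := inferInstance
            W := (WW P n).subgroupOf X
            L := L
            fL := i1
            aL := i2
            fd := i3
            gl := i4
            α := p
            reg := hreg
            hα := fun w hw => hp w hw
            perf := ?_
            comm := ?_ }, X, hX, hW, MulEquiv.refl _, fun x => Iff.rfl⟩
  · intro x hx
    have h1 : ((WW P n).subgroupOf X).map X.subtype = WW P n :=
      Subgroup.map_subgroupOf_eq_of_le hW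
    have h2 : (x : Wr P n) ∈
        (⁅(WW P n).subgroupOf X, (WW P n).subgroupOf X⁆).map X.subtype := by
      rw [Subgroup.map_commutator, h1, ww_perf hn]
      exact hx
    obtain ⟨y, hy, hyx⟩ := h2
    have h3 : y = x := Subtype.ext hyx
    rwa [h3] at hy
  · rw [Subgroup.commutator_le]
    intro a _ b _
    change (⁅a, b⁆ : X).1 ∈ WW P n
    have h1 : ((⁅a, b⁆ : X) : Wr P n) = ⁅(a : Wr P n), (b : Wr P n)⁆ := by
      exact map_commutatorElement X.subtype a b
    rw [h1]
    have hc : ∀ {B : Type} [CommGroup B] (φ : Wr P n →* B), φ ⁅(a : Wr P n), (b : Wr P n)⁆ = 1 := by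
      intro B _ φ
      rw [map_commutatorElement, commutatorElement_eq_one_iff_mul_comm, mul_comm]
    refine ⟨?_, ?_⟩
    · exact hc (Perm.sign.comp SemidirectProduct.rightHom)
    · exact hc (wc P n)

end dat

end Pool.Agent.X285.PA
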