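import Mathlib
import Pool.Agent.X285.PA.Cnc
import Pool.Agent.X285.PA.Fld

/-!
# Assembly
-/

set_option autoImplicit false
set_option linter.unusedSectionVars false

namespace Pool.Agent.X285.PA

open Equiv Pool.Agent.H391R2 Pool.Agent.Y793
open Pool.Agent.H391R2.T4 (RegSol HilbField)
open Pool.Agent.TH377.IG (SpecProp)
open IntermediateField AlgEquiv

theorem perf_alt {n : ℕ} (hn : 5 ≤ n) : commutator (alternatingGroup (Fin n)) = ⊤ :=
  commutator_alternatingGroup_eq_top (by simpa using hn)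

/-- The data for a finite group `G`. -/
theorem data (K : Type) [Field K] [CharZero K] (G : Type) [Group G] [Finite G] :
    ∃ n₀ : ℕ, ∀ n ≥ n₀, ∃ k₀ : ℕ, ∀ k ≥ k₀, ∃ (D : Dat K)
      (f : D.X →* AWr (alternatingGroup (Fin n)) (8 * k + 4)) (g : f.ker →* G),
      (∀ y, ∃ w ∈ D.W, f w = y) ∧
      ∀ a, ∃ (w : D.X) (hw : w ∈ f.ker), w ∈ D.W ∧ g ⟨w, hw⟩ = a := by
  obtain ⟨n₀, hn₀⟩ := reg_wr K G
  refine ⟨n₀ + 5, fun n hn => ?_⟩
  have hfW : Finite (Wr G n) := T4.finite_wr G n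
  obtain ⟨P, i1, i2, e, k₀, hk₀⟩ := main' K (Wr G n) (hn₀ n (by omega)) (AWr G n)
    (awr_index G (by omega))
  refine ⟨k₀ + 1, fun k hk => ?_⟩
  obtain ⟨D, X, hX, hW, ε, hε⟩ := exists_dat (K := K) (n := 8 * k + 4) (by omega)
    (hk₀ k (by omega))
  let π : AWr G n →* alternatingGroup (Fin n) :=
    MonoidHom.mk' (fun x => ⟨(x : Wr G n).right, Perm.mem_alternatingGroup.2 x.2⟩)
      (fun a b => rfl)
  have hπ : Function.Surjective π := fun y =>
    ⟨⟨SemidirectProduct.inr (y : Perm (Fin n)), Perm.mem_alternatingGroup.1 y.2⟩, rfl⟩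
  let π' : P →* alternatingGroup (Fin n) := π.comp e.toMonoidHom
  have hπ' : Function.Surjective π' := hπ.comp e.surjective
  have hker : ∀ x : π'.ker, ((e (x : P) : AWr G n) : Wr G n).right = 1 := by
    intro x
    exact congrArg Subtype.val (show π' x = 1 from x.2)
  let i₀ : Fin n := ⟨0, by omega⟩
  let c : π'.ker →* G := MonoidHom.mk' (fun x => ((e (x : P) : AWr G n) : Wr G n).left i₀)
    (fun a b => by
      change ((e ((a : P) * (b : P)) : AWr G n) : Wr G n).left i₀ = _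
      rw [map_mul, Subgroup.coe_mul, wr_mul_left, hker a]
      rfl)
  have hc : Function.Surjective c := by
    intro a
    let z : Wr G n := SemidirectProduct.inl (Pi.mulSingle i₀ a)
    have hz : z ∈ AWr G n := by
      change Perm.sign z.right = 1
      rw [SemidirectProduct.right_inl, map_one]
    refine ⟨⟨e.symm ⟨z, hz⟩, ?_⟩, ?_⟩
    · rw [MonoidHom.mem_ker]
      change π (e (e.symm ⟨z, hz⟩)) = 1
      rw [MulEquiv.apply_symm_apply]
      rfl
    · change ((e (e.symm ⟨z, hz⟩) : AWr G n) : Wr G n).left i₀ = a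
      rw [MulEquiv.apply_symm_apply]
      change (Pi.mulSingle i₀ a : Fin n → G) i₀ = a
      exact Pi.mulSingle_eq_same _ _
  let f₀ := fmap π' (8 * k + 4) X hX
  let j₀ : Fin (8 * k + 4) := ⟨0, by omega⟩
  let g₀ := gmap π' X hX j₀ c
  have hkk : ∀ x : (f₀.comp ε.toMonoidHom).ker, ε (x : D.X) ∈ f₀.ker := fun x => x.2
  let g : (f₀.comp ε.toMonoidHom).ker →* G :=
    g₀.comp ((ε.toMonoidHom.comp (f₀.comp ε.toMonoidHom).ker.subtype).codRestrict f₀.ker hkk)
  refine ⟨D, f₀.comp ε.toMonoidHom, g, fun y => ?_, fun a => ?_⟩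
  · obtain ⟨w, hw, hwy⟩ := fmap_surj π' hπ' (perf_alt (by omega)) X hX hW y
    refine ⟨ε.symm w, ?_, ?_⟩
    · rw [hε, MulEquiv.apply_symm_apply]
      exact hw
    · change f₀ (ε (ε.symm w)) = y
      rw [MulEquiv.apply_symm_apply]
      exact hwy
  · obtain ⟨w, hw, hwW, hwa⟩ := gmap_surj π' X hX hW (by omega) j₀ c hc a
    have h1 : ε.symm w ∈ (f₀.comp ε.toMonoidHom).ker := by
      rw [MonoidHom.mem_ker]
      change f₀ (ε (ε.symm w)) = 1
      rw [MulEquiv.apply_symm_apply]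
      exact hw
    refine ⟨ε.symm w, h1, ?_, ?_⟩
    · rw [hε, MulEquiv.apply_symm_apply]
      exact hwW
    · rw [← hwa]
      change g₀ ⟨ε (ε.symm w), _⟩ = g₀ ⟨w, hw⟩
      congr 1
      apply Subtype.ext
      exact ε.apply_symm_apply w

section

variable {K Ω : Type} [Field K] [Field Ω] [Algebra K Ω] [IsGalois K Ω] [IsSepClosed Ω]

/-- The fields. -/
theorem fields (hK : SpecProp K) (M : IntermediateField K Ω) (hM : Pool.Agent.H451R6.FG M)
    (D : ℕ → Dat K) (Q : ℕ → Type) [∀ i, Group (Q i)] (f : ∀ i, (D i).X →* Q i)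
    (hf : ∀ i y, ∃ w ∈ (D i).W, f i w = y) (G : ℕ → Type) [∀ i, Group (G i)]
    (g : ∀ i, (f i).ker →* G i)
    (hg : ∀ i a, ∃ (w : (D i).X) (hw : w ∈ (f i).ker), w ∈ (D i).W ∧ g i ⟨w, hw⟩ = a) :
    ∃ (F : IntermediateField K Ω) (_ : IsGalois K F) (e : Gal(F/K) ≃* ∀ i, Q i),
      (∀ i, IsOpen {σ : Gal(F/K) | e σ i = 1}) ∧ F ⊓ M = ⊥ ∧
      ∀ (J : Type) (s : J → ℕ), Function.Injective s → ∃ F' : IntermediateField F Ω,
        IsGalois F F' ∧ Nonempty ((∀ j, G (s j)) ≃* Gal(F'/F)) := by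
  classical
  obtain ⟨q, hq1, hq2, hq3⟩ := rec_main hK M hM D
  have hρ : ∀ y : ∀ i, Q i, ∃ σ ∈ M.fixingSubgroup, ∀ i, (f i).comp (q i) σ = y i := by
    intro y
    choose w hw1 hw2 using fun i => hf i (y i)
    obtain ⟨σ, hσ1, hσ2⟩ := hq3 w hw1
    refine ⟨σ, hσ1, fun i => ?_⟩
    rw [MonoidHom.comp_apply, hσ2, hw2]
  obtain ⟨F, hF, e, he1, he2, he3⟩ := prod_field (fun i => (f i).comp (q i))
    (fun y => by
      obtain ⟨σ, -, hσ⟩ := hρ y
      exact ⟨σ, hσ⟩)
    (fun i => Subgroup.isOpen_mono (fun σ hσ => by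
      rw [MonoidHom.mem_ker] at hσ
      rw [MonoidHom.mem_ker, MonoidHom.comp_apply, hσ, map_one]) (hq2 i))
  refine ⟨F, hF, e, he3, inf_bot F M hM fun σ => ?_, fun J s hs => ?_⟩
  · obtain ⟨τ, hτ1, hτ2⟩ := hρ (fun i => (f i).comp (q i) σ)
    refine ⟨τ, hτ1, (he2 _).2 fun i => ?_⟩
    rw [map_mul, map_inv, hτ2, inv_mul_cancel]
  · have hmemF : ∀ σ : Gal(Ω/F), (restrictScalarsHom K σ : Gal(Ω/K)) ∈ F.fixingSubgroup := by
      intro σ
      rw [IntermediateField.mem_fixingSubgroup_iff]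
      intro x hx
      exact σ.commutes ⟨x, hx⟩
    let r : ∀ i, Gal(Ω/F) →* (f i).ker := fun i =>
      ((q i).comp (restrictScalarsHom K : Gal(Ω/F) →* Gal(Ω/K))).codRestrict (f i).ker
        (fun σ => (he2 _).1 (hmemF σ) i)
    have hro : ∀ i, IsOpen ((r i).ker : Set Gal(Ω/F)) := by
      intro i
      have h1 := open_res F (q i) (hq2 i) (MonoidHom.normal_ker _)
      refine Subgroup.isOpen_mono (fun σ hσ => ?_) h1
      rw [MonoidHom.mem_ker] at hσ ⊢
      exact Subtype.ext hσ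
    obtain ⟨F', hF', e', -, -, -⟩ := prod_field (k := F) (Ω := Ω) (A := fun j => G (s j))
      (fun j => (g (s j)).comp (r (s j)))
      (fun a => by
        have h1 : ∀ i, ∃ (t : (D i).X) (ht : t ∈ (f i).ker), t ∈ (D i).W ∧
            ∀ j (h : s j = i), g i ⟨t, ht⟩ = h ▸ a j := by
          intro i
          by_cases h : ∃ j, s j = i
          · obtain ⟨j, rfl⟩ := h
            obtain ⟨w, hw, hW, hwa⟩ := hg (s j) (a j)
            refine ⟨w, hw, hW, fun j' h' => ?_⟩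
            obtain rfl := hs h'
            exact hwa
          · exact ⟨1, one_mem _, one_mem _, fun j hj => absurd ⟨j, hj⟩ h⟩
        choose t ht htW hta using h1
        obtain ⟨σ, -, hσ⟩ := hq3 t htW
        have hσF : σ ∈ F.fixingSubgroup := by
          rw [he2]
          intro i
          rw [MonoidHom.comp_apply, hσ]
          exact ht i
        refine ⟨fixingSubgroupEquiv F ⟨σ, hσF⟩, fun j => ?_⟩
        refine Eq.trans ?_ (hta (s j) j rfl)
        rw [MonoidHom.comp_apply]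
        congr 1
        apply Subtype.ext
        exact hσ (s j))
      (fun j => Subgroup.isOpen_mono (fun σ hσ => by
        rw [MonoidHom.mem_ker] at hσ
        rw [MonoidHom.mem_ker, MonoidHom.comp_apply, hσ, map_one]) (hro (s j)))
    exact ⟨F', hF', ⟨e'.symm⟩⟩

end

end Pool.Agent.X285.PA
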