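import Mathlib

/-!
# Solvable subextensions
-/

set_option autoImplicit false

namespace Pool.Agent.X285.PA

open IntermediateField AlgEquiv

/-- A homomorphism from a perfect group to a solvable group is trivial. -/
theorem perf_solv {Q S : Type} [Group Q] [Group S] (hQ : commutator Q = ⊤) (φ : Q →* S)
    (hS : IsSolvable S) (x : Q) : φ x = 1 := by
  have h1 : ∀ n, derivedSeries Q n = ⊤ := by
    intro n
    induction n with
    | zero => exact derivedSeries_zero Q
    | succ n ih => rw [derivedSeries_succ, ih, ← commutator_def, hQ]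
  obtain ⟨n, hn⟩ := hS.solvable
  have h2 : (derivedSeries Q n).map φ ≤ derivedSeries S n := map_derivedSeries_le_derivedSeries φ n
  have h3 : φ x ∈ derivedSeries S n := h2 ⟨x, by rw [h1]; exact Subgroup.mem_top x, rfl⟩
  rw [hn] at h3
  exact Subgroup.mem_bot.1 h3

/-- The only finite solvable Galois subextension is trivial. -/
theorem no_solv {k F : Type} [Field k] [Field F] [Algebra k F] [IsGalois k F] (Q : ℕ → Type)
    [∀ i, Group (Q i)] (e : Gal(F/k) ≃* ∀ i, Q i) (ho : ∀ i, IsOpen {σ : Gal(F/k) | e σ i = 1})
    (hQ : ∀ i, commutator (Q i) = ⊤) (E : IntermediateField k F) [FiniteDimensional k E]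
    [IsGalois k E] (hs : IsSolvable Gal(E/k)) : E = ⊥ := by
  classical
  let φ : (∀ i, Q i) →* Gal(E/k) := (restrictNormalHom (F := k) (K₁ := F) E).comp
    e.symm.toMonoidHom
  have hφ : ∀ σ, φ (e σ) = restrictNormalHom (F := k) (K₁ := F) E σ := by
    intro σ
    change restrictNormalHom (F := k) (K₁ := F) E (e.symm (e σ)) = _
    rw [MulEquiv.symm_apply_apply]
  have hopen : IsOpen (E.fixingSubgroup : Set Gal(F/k)) := E.fixingSubgroup_isOpen
  -- a basic neighbourhood
  obtain ⟨m, hm⟩ : ∃ m : ℕ, ∀ x : ∀ i, Q i, (∀ i < m, x i = 1) → φ x = 1 := by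
    by_contra hcon
    push Not at hcon
    let C : ℕ → Set Gal(F/k) := fun m => (⋂ i ∈ Set.Iio m, {σ | e σ i = 1}) ∩
      (E.fixingSubgroup : Set Gal(F/k))ᶜ
    have hmem : ∀ m σ, σ ∈ C m ↔ (∀ i < m, e σ i = 1) ∧ σ ∉ E.fixingSubgroup := by
      intro m σ
      simp [C]
    have hcl1 : ∀ i, IsClosed {σ : Gal(F/k) | e σ i = 1} := by
      intro i
      have h1 : {σ : Gal(F/k) | e σ i = 1} =
          (((Pi.evalMonoidHom Q i).comp e.toMonoidHom).ker : Set Gal(F/k)) := rfl
      have h2 := ho i
      rw [h1] at h2 ⊢
      exact Subgroup.isClosed_of_isOpen _ h2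
    have hclosed : ∀ m, IsClosed (C m) := fun m =>
      (isClosed_biInter fun i _ => hcl1 i).inter hopen.isClosed_compl
    have hdec : ∀ m, C (m + 1) ⊆ C m := fun m σ hσ => by
      rw [hmem] at hσ ⊢
      exact ⟨fun i hi => hσ.1 i (by omega), hσ.2⟩
    have hne : ∀ m, (C m).Nonempty := by
      intro m
      obtain ⟨x, hx1, hx2⟩ := hcon m
      refine ⟨e.symm x, (hmem _ _).2 ⟨fun i hi => ?_, fun h => hx2 ?_⟩⟩
      · rw [MulEquiv.apply_symm_apply]
        exact hx1 i hi
      · rw [← restrictNormalHom_ker, MonoidHom.mem_ker] at h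
        exact h
    obtain ⟨σ, hσ⟩ := IsCompact.nonempty_iInter_of_sequence_nonempty_isCompact_isClosed C hdec hne
      (hclosed 0).isCompact hclosed
    rw [Set.mem_iInter] at hσ
    have h1 : e σ = 1 := by
      funext i
      exact ((hmem _ _).1 (hσ (i + 1))).1 i (Nat.lt_succ_self i)
    have h2 : σ = 1 := by
      apply e.injective
      rw [h1, map_one]
    exact ((hmem _ _).1 (hσ 0)).2 (by rw [h2]; exact one_mem _)
  have hfin : ∀ (j : ℕ) (x : ∀ i, Q i), (∀ i, j ≤ i → x i = 1) → φ x = 1 := by
    intro j
    induction j with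
    | zero =>
      intro x hx
      have h1 : x = 1 := funext fun i => hx i (Nat.zero_le i)
      rw [h1, map_one]
    | succ j ih =>
      intro x hx
      have h1 : x = Function.update x j 1 * Pi.mulSingle j (x j) := by
        funext i
        rw [Pi.mul_apply]
        by_cases h : i = j
        · subst h
          rw [Function.update_self, Pi.mulSingle_eq_same, one_mul]
        · rw [Function.update_of_ne h, Pi.mulSingle_eq_of_ne h, mul_one]
      have h2 : φ (Pi.mulSingle j (x j)) = 1 :=
        perf_solv (hQ j) (φ.comp (MonoidHom.mulSingle Q j)) hs (x j)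
      rw [h1, map_mul, h2, mul_one]
      apply ih
      intro i hi
      by_cases h : i = j
      · subst h
        rw [Function.update_self]
      · rw [Function.update_of_ne h]
        exact hx i (by omega)
  have hall : ∀ x, φ x = 1 := by
    intro x
    have h1 : x = (fun i => if i < m then x i else 1) * (fun i => if i < m then 1 else x i) := by
      funext i
      rw [Pi.mul_apply]
      split_ifs
      · rw [mul_one]
      · rw [one_mul]
    rw [h1, map_mul, hfin m _ (fun i hi => by
      change (if i < m then x i else 1) = 1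
      rw [if_neg (by omega)]), hm _ (fun i hi => by
      change (if i < m then 1 else x i) = 1
      rw [if_pos hi]), one_mul]
  have htop : E.fixingSubgroup = ⊤ := by
    rw [eq_top_iff]
    intro σ _
    rw [← restrictNormalHom_ker, MonoidHom.mem_ker, ← hφ]
    exact hall _
  rw [← InfiniteGalois.fixedField_fixingSubgroup E, htop, InfiniteGalois.fixedField_bot]

end Pool.Agent.X285.PA
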