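import Mathlib
import Pool.Prelude.Def_F_b1b78ff3
import Pool.Agent.X285.PA.Asm
import Pool.Agent.X285.PA.Slv

/-!
# The final theorem
-/

set_option autoImplicit false
set_option linter.unusedSectionVars false

namespace Pool.Agent.X285.PA

open Equiv Pool.Agent.H391R2 Pool.Agent.Y793 Nfff32c05
open Pool.Agent.H391R2.T4 (RegSol HilbField)
open Pool.Agent.TH377.IG (SpecProp)
open IntermediateField AlgEquiv

/-- `A_n ≀ A_r`. -/
abbrev AltWr (n r : ℕ) : Type := AWr (alternatingGroup (Fin n)) r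

theorem exists_sm (a : ℕ → ℕ) (c : ℕ) :
    ∃ n : ℕ → ℕ, StrictMono n ∧ (∀ i, a i ≤ n i) ∧ ∀ i, c ≤ n i := by
  refine ⟨fun i => ∑ l ∈ Finset.range (i + 1), (a l + c + 1), ?_, fun i => ?_, fun i => ?_⟩
  · refine strictMono_nat_of_lt_succ fun i => ?_
    beta_reduce
    rw [Finset.sum_range_succ _ (i + 1)]
    omega
  · beta_reduce
    rw [Finset.sum_range_succ]
    omega
  · beta_reduce
    rw [Finset.sum_range_succ]
    omega

/-- The finite groups. -/
abbrev FGp : Type := Σ m : ℕ, Subgroup (Perm (Fin m))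

theorem exists_fgp (H : Type) [Group H] [Finite H] : ∃ t : FGp, Nonempty (H ≃* t.2) := by
  let ε : H ≃ Fin (Nat.card H) := Finite.equivFin H
  let f : H →* Perm (Fin (Nat.card H)) := ε.permCongrHom.toMonoidHom.comp (MulAction.toPermHom H H)
  have hf : Function.Injective f :=
    ε.permCongrHom.injective.comp (MulAction.toPerm_injective (α := H) (β := H))
  exact ⟨⟨Nat.card H, f.range⟩, ⟨MonoidHom.ofInjective hf⟩⟩

theorem exists_enum : ∃ t : ℕ → FGp, ∀ (ι : Type) [Countable ι] (H : ι → Type)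
    [∀ i, Group (H i)] [∀ i, Finite (H i)], ∃ s : ι → ℕ, Function.Injective s ∧
      ∀ j, Nonempty (H j ≃* (t (s j)).2) := by
  have hn : Nonempty FGp := ⟨⟨0, ⊤⟩⟩
  have hc : Countable FGp := inferInstance
  obtain ⟨t, ht⟩ := exists_surjective_nat FGp
  refine ⟨fun i => t (Nat.unpair i).1, fun ι _ H _ _ => ?_⟩
  obtain ⟨ν, hν⟩ := exists_injective_nat ι
  have h1 : ∀ j, ∃ a, Nonempty (H j ≃* (t a).2) := by
    intro j
    obtain ⟨u, hu⟩ := exists_fgp (H j)
    obtain ⟨a, rfl⟩ := ht u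
    exact ⟨a, hu⟩
  choose a ha using h1
  refine ⟨fun j => Nat.pair (a j) (ν j), fun j j' h => ?_, fun j => ?_⟩
  · have h2 := congrArg (fun m => (Nat.unpair m).2) h
    simp only [Nat.unpair_pair] at h2
    exact hν h2
  · beta_reduce
    rw [Nat.unpair_pair]
    exact ha j

section

variable {K F M Ω : Type} [Field K] [Field M] [Algebra K M] [FiniteDimensional K M]
  [Field Ω] [Algebra K Ω] [IsAlgClosed Ω]

/-- A subfield of `Ω` which embeds into `M` is contained in the normal closure of `M`. -/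
theorem le_nc (E : IntermediateField K Ω) (h : Nonempty (E →ₐ[K] M)) :
    E ≤ normalClosure K M Ω := by
  obtain ⟨g⟩ := h
  let _ : Algebra E M := g.toRingHom.toAlgebra
  have ht : IsScalarTower K E M := IsScalarTower.of_algebraMap_eq fun x => (g.commutes x).symm
  have halg : Algebra.IsAlgebraic E M := Algebra.IsAlgebraic.tower_top (K := K) E
  let f : M →ₐ[E] Ω := IsAlgClosed.lift
  intro x hx
  have h1 : f (g ⟨x, hx⟩) = x := f.commutes ⟨x, hx⟩
  rw [← h1]
  exact AlgHom.fieldRange_le_normalClosure (f.restrictScalars K) ⟨g ⟨x, hx⟩, rfl⟩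

end

theorem final (K : Type) [Field K] [CharZero K] (hK : SpecProp K) (M : Type) [Field M]
    [Algebra K M] [FiniteDimensional K M] (b : ℕ) :
    ∃ (n r : ℕ → ℕ) (F : Type) (_ : Field F) (_ : Algebra K F) (_ : IsGalois K F)
      (e : (F ≃ₐ[K] F) ≃* ∀ i, AltWr (n i) (r i)),
      (StrictMono n ∧ StrictMono r ∧ ∀ i, b ≤ n i ∧ b ≤ r i) ∧
      (∀ i, commutator (AltWr (n i) (r i)) = ⊤) ∧
      (∀ i, IsOpen {σ : F ≃ₐ[K] F | e σ i = 1}) ∧
      (∀ E : IntermediateField K F, FiniteDimensional K E → IsGalois K E →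
        Group.IsSolvable (E ≃ₐ[K] E) → E = ⊥) ∧
      (∀ E : IntermediateField K F, Nonempty (E →ₐ[K] M) → E = ⊥) ∧
      ∀ (ι : Type) [Countable ι] (H : ι → Type) [∀ i, Group (H i)] [∀ i, Finite (H i)],
        IsRealizable F (∀ i, H i) := by
  classical
  obtain ⟨t, ht⟩ := exists_enum
  choose n₀ hn₀ using fun i => data K (t i).2
  obtain ⟨n, hn1, hn2, hn3⟩ := exists_sm n₀ (b + 5)
  choose k₀ hk₀ using fun i => hn₀ i (n i) (hn2 i)
  obtain ⟨k, hk1, hk2, hk3⟩ := exists_sm k₀ (b + 1)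
  choose D f g hf hg using fun i => hk₀ i (k i) (hk2 i)
  let Ω := AlgebraicClosure K
  have hΩn : Normal K Ω := inferInstance
  have hΩs : Algebra.IsSeparable K Ω := inferInstance
  have hΩ : IsGalois K Ω := ⟨⟩
  have hΩs : IsSepClosed Ω := inferInstance
  let M' : IntermediateField K Ω := normalClosure K M Ω
  have hM'n : Normal K M' := normalClosure.normal K M Ω
  have hM'f : FiniteDimensional K M' := normalClosure.is_finiteDimensional K M Ω
  have hM' : Pool.Agent.H451R6.FG M' := ⟨hM'f, ⟨⟩⟩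
  obtain ⟨F, hF, e, he, hdis, hreal⟩ := fields hK M' hM' D
    (fun i => AltWr (n i) (8 * k i + 4)) f hf (fun i => (t i).2) g hg
  have hperf : ∀ i, commutator (AltWr (n i) (8 * k i + 4)) = ⊤ := fun i =>
    Y241.WR.t_perf _ (perf_alt (by have := hn3 i; omega)) _ (by have := hk3 i; omega)
  refine ⟨n, fun i => 8 * k i + 4, F, inferInstance, inferInstance, hF, e,
    ⟨hn1, fun i j hij => ?_, fun i => ⟨?_, ?_⟩⟩, hperf, he, fun E h1 h2 h3 => ?_,
    fun E hE => ?_, fun ι _ H _ _ => ?_⟩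
  · have := hk1 hij
    beta_reduce
    omega
  · have := hn3 i
    omega
  · have := hk3 i
    change b ≤ 8 * k i + 4
    omega
  · exact no_solv _ e he hperf E h3
  · have h1 : (IntermediateField.lift E) ≤ F ⊓ M' := by
      refine le_inf (IntermediateField.lift_le E) (le_nc (M := M) _ ?_)
      obtain ⟨φ⟩ := hE
      exact ⟨φ.comp (IntermediateField.liftAlgEquiv E).symm.toAlgHom⟩
    rw [hdis, le_bot_iff] at h1
    rw [eq_bot_iff]
    intro x hx
    have h2 : (x : Ω) ∈ IntermediateField.lift E := (IntermediateField.mem_lift x).2 hx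
    rw [h1, IntermediateField.mem_bot] at h2
    obtain ⟨y, hy⟩ := h2
    rw [IntermediateField.mem_bot]
    exact ⟨y, Subtype.ext hy⟩
  · obtain ⟨s, hs, hsH⟩ := ht ι H
    obtain ⟨F', hF', ⟨e'⟩⟩ := hreal ι s hs
    exact ⟨⟨⟨F', inferInstance, inferInstance, hF',
      (MulEquiv.piCongrRight fun j => Classical.choice (hsH j)).trans e'⟩⟩⟩

end Pool.Agent.X285.PA
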